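import Pool.Agent.RMQ.Basic

/-!
Representations of tuples of matrices as sums of weighted squares, and the schedules.
-/

set_option autoImplicit false

open Matrix

namespace RMQ

/-- `B` is a sum of `s` weighted squares: `B i = ∑_l p_l(i) y_l y_lᵀ`. -/
def Rep {ι : Type} {n : ℕ} (s : ℕ) (B : ι → Mat n) : Prop :=
  ∃ (p : Fin s → ι → ZMod 2) (y : Fin s → Vec n), ∀ i, B i = ∑ l, p l i • sq (y l)

/-- Schedules: rank vectors which can be reached with `s` points. -/
inductive Reach (n u : ℕ) {g : ℕ} : (Fin g → ℕ) → ℕ → Prop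
  | zero : Reach n u (fun _ => 0) 0
  | jump (κ : Fin g → ℕ) (i : Fin g) (k s : ℕ) : Reach n u κ s → κ i = 0 → 0 < k → k ≤ n →
      Reach n u (Function.update κ i k) (s + k)
  | single (κ : Fin g → ℕ) (i : Fin g) (s : ℕ) : Reach n u κ s → u ≤ κ i → κ i < n →
      Reach n u (Function.update κ i (κ i + 1)) (s + 1)
  | pair (κ : Fin g → ℕ) (i j : Fin g) (s : ℕ) : Reach n u κ s → i ≠ j → n + u ≤ κ i + κ j →
      κ i < n → κ j < n →
      Reach n u (Function.update (Function.update κ i (κ i + 1)) j (κ j + 1)) (s + 1)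

end RMQ
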