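import Pool.Agent.RMQ.Defs

/-!
The staircase schedule: `g` slices of rank `n = K D` are reached with at most
`(1/2 + d) g n` points, and all pair steps have rank sum at least `n + u`.
-/

set_option autoImplicit false

namespace RMQ

namespace Sched

variable {n u g : ℕ}

theorem singles (κ : Fin g → ℕ) (i : Fin g) (s m : ℕ) (h : Reach n u κ s) (hu : u ≤ κ i)
    (hm : κ i + m ≤ n) : Reach n u (Function.update κ i (κ i + m)) (s + m) := by
  induction m with
  | zero => simpa using h
  | succ m ih =>
    have h1 := ih (by omega)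
    have h2 := Reach.single _ i _ h1 (by simp; omega) (by simp; omega)
    simpa [add_assoc] using h2

theorem pairs (κ : Fin g → ℕ) (i j : Fin g) (s m : ℕ) (hij : i ≠ j) (h : Reach n u κ s)
    (hu : n + u ≤ κ i + κ j) (hi : κ i + m ≤ n) (hj : κ j + m ≤ n) :
    Reach n u (Function.update (Function.update κ i (κ i + m)) j (κ j + m)) (s + m) := by
  induction m with
  | zero => simpa using h
  | succ m ih =>
    have h1 := ih (by omega) (by omega)
    have e1 : (Function.update (Function.update κ i (κ i + m)) j (κ j + m)) i = κ i + m := by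
      rw [Function.update_of_ne hij, Function.update_self]
    have e2 : (Function.update (Function.update κ i (κ i + m)) j (κ j + m)) j = κ j + m := by
      rw [Function.update_self]
    have h2 := Reach.pair _ i j _ h1 hij (by rw [e1, e2]; omega) (by rw [e1]; omega)
      (by rw [e2]; omega)
    rw [e1, e2] at h2
    have e3 : Function.update (Function.update (Function.update (Function.update κ i (κ i + m)) j
        (κ j + m)) i (κ i + m + 1)) j (κ j + m + 1) =
        Function.update (Function.update κ i (κ i + (m + 1))) j (κ j + (m + 1)) := by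
      funext x
      by_cases hxj : x = j
      · subst hxj
        simp [add_assoc]
      · by_cases hxi : x = i
        · subst hxi
          simp [hxj, add_assoc]
        · simp [hxj, hxi]
    rw [e3] at h2
    exact h2

theorem block (κ : Fin g → ℕ) (i j : Fin g) (s D : ℕ) (hij : i ≠ j) (h : Reach n u κ s)
    (hn : n ≤ κ i + κ j) (hui : u ≤ κ i) (huj : u ≤ κ j) (hi : κ i + D ≤ n) (hj : κ j + D ≤ n)
    (hD : u ≤ D) :
    Reach n u (Function.update (Function.update κ i (κ i + D)) j (κ j + D)) (s + (D + u)) := by
  have h1 := singles κ i s u h hui (by omega)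
  have e1 : (Function.update κ i (κ i + u)) j = κ j := Function.update_of_ne hij.symm _ _
  have h2 := singles _ j _ u h1 (by rw [e1]; exact huj) (by rw [e1]; omega)
  rw [e1] at h2
  set κ' : Fin g → ℕ := Function.update (Function.update κ i (κ i + u)) j (κ j + u) with hκ'
  have e2 : κ' i = κ i + u := by
    rw [hκ', Function.update_of_ne hij, Function.update_self]
  have e3 : κ' j = κ j + u := by
    rw [hκ', Function.update_self]
  have h3 := pairs κ' i j _ (D - u) hij h2 (by rw [e2, e3]; omega) (by rw [e2]; omega)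
    (by rw [e3]; omega)
  rw [e2, e3] at h3
  have e4 : κ i + u + (D - u) = κ i + D := by omega
  have e5 : κ j + u + (D - u) = κ j + D := by omega
  have e6 : s + u + u + (D - u) = s + (D + u) := by omega
  rw [e4, e5, e6] at h3
  have e7 : Function.update (Function.update κ' i (κ i + D)) j (κ j + D) =
      Function.update (Function.update κ i (κ i + D)) j (κ j + D) := by
    funext x
    by_cases hxj : x = j
    · subst hxj
      simp
    · by_cases hxi : x = i
      · subst hxi
        simp [hxj]
      · simp [hxj, hxi, hκ']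
  rw [e7] at h3
  exact h3

/-- reachability of level vectors -/
def LR (K D u : ℕ) {g : ℕ} (f : Fin g → ℕ) (s : ℕ) : Prop :=
  Reach (K * D) u (fun i => D * f i) s

variable {K D : ℕ}

theorem upd (f : Fin g → ℕ) (i : Fin g) (a : ℕ) :
    Function.update (fun i => D * f i) i (D * a) = fun x => D * Function.update f i a x := by
  funext x
  by_cases h : x = i
  · subst h; simp
  · simp [h]

theorem LR.zero : LR K D u (fun _ : Fin g => 0) 0 := by
  unfold LR
  exact Reach.zero

theorem LR.jump (hD : 1 ≤ D) (f : Fin g → ℕ) (i : Fin g) (k s : ℕ) (h : LR K D u f s)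
    (h0 : f i = 0) (hk : k ≤ K) : LR K D u (Function.update f i k) (s + D * k) := by
  rcases Nat.eq_zero_or_pos k with rfl | hk0
  · have : Function.update f i 0 = f := by
      rw [← h0]; exact Function.update_eq_self i f
    rw [this]
    simpa using h
  · unfold LR at h ⊢
    have h1 := Reach.jump _ i (D * k) s h (by simp [h0]) (Nat.mul_pos hD hk0)
      (by rw [Nat.mul_comm K D]; exact Nat.mul_le_mul_left D hk)
    rw [upd] at h1
    exact h1

theorem LR.finish (hu : u ≤ D) (f : Fin g → ℕ) (i : Fin g) (s : ℕ) (h : LR K D u f s)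
    (h0 : 1 ≤ f i) (hk : f i ≤ K) :
    LR K D u (Function.update f i K) (s + D * (K - f i)) := by
  unfold LR at h ⊢
  have e : D * f i + D * (K - f i) = D * K := by
    rw [← Nat.mul_add]; congr 1; omega
  have h1 := singles _ i s (D * (K - f i)) h
    (le_trans hu (by simpa using Nat.mul_le_mul_left D h0))
    (by show D * f i + D * (K - f i) ≤ K * D
        rw [e, Nat.mul_comm])
  have h2 : (fun i => D * f i) i + D * (K - f i) = D * K := e
  rw [h2, upd] at h1
  exact h1

theorem LR.block (hu : u ≤ D) (f : Fin g → ℕ) (i j : Fin g) (s a b : ℕ) (hij : i ≠ j)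
    (h : LR K D u f s) (hi : f i = a) (hj : f j = b) (ha : 1 ≤ a) (hb : 1 ≤ b)
    (hab : a + b = K) :
    LR K D u (Function.update (Function.update f i (a + 1)) j (b + 1)) (s + (D + u)) := by
  unfold LR at h ⊢
  have hK : K * D = D * a + D * b := by rw [← hab]; ring
  have h1 : D ≤ D * a := by simpa using Nat.mul_le_mul_left D ha
  have h2 : D ≤ D * b := by simpa using Nat.mul_le_mul_left D hb
  have h3 := Sched.block (fun i => D * f i) i j s D hij h
    (by show K * D ≤ D * f i + D * f j
        rw [hi, hj, hK])
    (by show u ≤ D * f i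
        rw [hi]; omega)
    (by show u ≤ D * f j
        rw [hj]; omega)
    (by show D * f i + D ≤ K * D
        rw [hi]; omega)
    (by show D * f j + D ≤ K * D
        rw [hj]; omega) hu
  have e1 : (fun i => D * f i) i + D = D * (a + 1) := by
    show D * f i + D = D * (a + 1)
    rw [hi]; ring
  have e2 : (fun i => D * f i) j + D = D * (b + 1) := by
    show D * f j + D = D * (b + 1)
    rw [hj]; ring
  rw [e1, e2, upd, upd] at h3
  exact h3

/-- all jumps -/
theorem LR.start (hD : 1 ≤ D) (f : Fin g → ℕ) (hf : ∀ i, f i ≤ K) :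
    LR K D u f (D * ∑ i, f i) := by
  classical
  have key : ∀ S : Finset (Fin g),
      LR K D u (fun i => if i ∈ S then f i else 0) (D * ∑ i ∈ S, f i) := by
    intro S
    induction S using Finset.induction_on with
    | empty => simpa using LR.zero
    | insert a S ha ih =>
      have h1 := LR.jump hD _ a (f a) _ ih (by simp [ha]) (hf a)
      rw [Finset.sum_insert ha, Nat.mul_add, Nat.add_comm (D * f a)]
      have e : (fun i => if i ∈ insert a S then f i else 0) =
          Function.update (fun i => if i ∈ S then f i else 0) a (f a) := by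
        funext x
        by_cases hx : x = a
        · subst hx; simp
        · simp [hx, Finset.mem_insert]
      rw [e]
      exact h1
  simpa using key Finset.univ

/-- all last steps -/
theorem LR.end_ (hu : u ≤ D) (f : Fin g → ℕ) (s : ℕ) (h : LR K D u f s)
    (hf : ∀ i, 1 ≤ f i ∧ f i ≤ K) :
    LR K D u (fun _ : Fin g => K) (s + D * ∑ i, (K - f i)) := by
  classical
  have key : ∀ S : Finset (Fin g),
      LR K D u (fun i => if i ∈ S then K else f i) (s + D * ∑ i ∈ S, (K - f i)) := by
    intro S
    induction S using Finset.induction_on with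
    | empty => simpa using h
    | insert a S ha ih =>
      have h1 := LR.finish hu _ a _ ih (by simpa [ha] using (hf a).1) (by simpa [ha] using (hf a).2)
      rw [Finset.sum_insert ha, Nat.mul_add, Nat.add_comm (D * (K - f a)), ← Nat.add_assoc]
      simp only [ha, if_false] at h1
      have e : (fun i => if i ∈ insert a S then K else f i) =
          Function.update (fun i => if i ∈ S then K else f i) a K := by
        funext x
        by_cases hx : x = a
        · subst hx; simp
        · simp [hx, Finset.mem_insert]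
      rw [e]
      exact h1
  simpa using key Finset.univ

/-- the levels during the step number `t`, after `r` pairs -/
def st (K t r i : ℕ) : ℕ :=
  if (1 ≤ t + K - 1 - i ∧ t + K - 1 - i ≤ r) ∨ (K ≤ t + K - 1 - i + r ∧ t + K - 1 - i ≤ K - 1)
  then t + K - i else min K (t + K - 1 - i)

theorem st_step (hu : u ≤ D) {q t r s : ℕ} (hK : K = 2 * q + 1) (ht : t + K - 1 < g)
    (hr : r + 1 ≤ q) (h : LR K D u (fun i : Fin g => st K t r i) s) :
    LR K D u (fun i : Fin g => st K t (r + 1) i) (s + (D + u)) := by
  have h1 := LR.block hu _ (⟨t + K - 2 - r, by omega⟩ : Fin g) (⟨t + r, by omega⟩ : Fin g) s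
    (r + 1) (K - (r + 1)) (by intro hc; rw [Fin.mk.injEq] at hc; omega) h
    (by show st K t r (t + K - 2 - r) = r + 1
        unfold st; split_ifs <;> omega)
    (by show st K t r (t + r) = K - (r + 1)
        unfold st; split_ifs <;> omega) (by omega) (by omega) (by omega)
  have e : (fun i : Fin g => st K t (r + 1) i) =
      Function.update (Function.update (fun i : Fin g => st K t r i)
        (⟨t + K - 2 - r, by omega⟩ : Fin g) (r + 1 + 1)) (⟨t + r, by omega⟩ : Fin g)
        (K - (r + 1) + 1) := by
    funext x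
    by_cases hx : x = (⟨t + r, by omega⟩ : Fin g)
    · subst hx
      rw [Function.update_self]
      show st K t (r + 1) (t + r) = _
      unfold st; split_ifs <;> omega
    · rw [Function.update_of_ne hx]
      by_cases hy : x = (⟨t + K - 2 - r, by omega⟩ : Fin g)
      · rw [hy, Function.update_self]
        show st K t (r + 1) (t + K - 2 - r) = _
        unfold st; split_ifs <;> omega
      · rw [Function.update_of_ne hy]
        have hx' : (x : ℕ) ≠ t + r := fun hc => hx (Fin.ext hc)
        have hy' : (x : ℕ) ≠ t + K - 2 - r := fun hc => hy (Fin.ext hc)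
        show st K t (r + 1) x = st K t r x
        unfold st; split_ifs <;> omega
  rw [e]
  exact h1

theorem mstep (hD : 1 ≤ D) (hu : u ≤ D) {q t s : ℕ} (hK : K = 2 * q + 1) (ht : t + K - 1 < g)
    (h : LR K D u (fun i : Fin g => st K t 0 i) s) :
    LR K D u (fun i : Fin g => st K (t + 1) 0 i) (s + ((q + 1) * D + q * u)) := by
  have key : ∀ r, r ≤ q → LR K D u (fun i : Fin g => st K t r i) (s + r * (D + u)) := by
    intro r
    induction r with
    | zero => intro _; simpa using h
    | succ r ih =>
      intro hr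
      have h1 := st_step hu hK ht hr (ih (by omega))
      have e : s + (r + 1) * (D + u) = s + r * (D + u) + (D + u) := by ring
      rw [e]
      exact h1
  have h1 := key q le_rfl
  have h2 := LR.jump hD _ (⟨t + K - 1, ht⟩ : Fin g) 1 _ h1
    (by show st K t q (t + K - 1) = 0
        unfold st; split_ifs <;> omega) (by omega)
  have e : s + ((q + 1) * D + q * u) = s + q * (D + u) + D * 1 := by ring
  have e2 : (fun i : Fin g => st K (t + 1) 0 i) =
      Function.update (fun i : Fin g => st K t q i) (⟨t + K - 1, ht⟩ : Fin g) 1 := by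
    funext x
    by_cases hx : x = (⟨t + K - 1, ht⟩ : Fin g)
    · subst hx
      rw [Function.update_self]
      show st K (t + 1) 0 (t + K - 1) = 1
      unfold st; split_ifs <;> omega
    · rw [Function.update_of_ne hx]
      have hx' : (x : ℕ) ≠ t + K - 1 := fun hc => hx (Fin.ext hc)
      show st K (t + 1) 0 x = st K t q x
      unfold st; split_ifs <;> omega
  rw [e, e2]
  exact h2

theorem msteps (hD : 1 ≤ D) (hu : u ≤ D) {q s : ℕ} (hK : K = 2 * q + 1)
    (h : LR K D u (fun i : Fin g => st K 0 0 i) s) :
    ∀ t, t + K - 1 ≤ g → LR K D u (fun i : Fin g => st K t 0 i) (s + t * ((q + 1) * D + q * u)) := by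
  intro t
  induction t with
  | zero => intro _; simpa using h
  | succ t ih =>
    intro ht
    have h1 := mstep hD hu hK (by omega) (ih (by omega))
    have e : s + (t + 1) * ((q + 1) * D + q * u) =
        s + t * ((q + 1) * D + q * u) + ((q + 1) * D + q * u) := by ring
    rw [e]
    exact h1

theorem sum_small (K g : ℕ) (f : Fin g → ℕ) (S : Finset (Fin g)) (hS : S.card ≤ K)
    (h0 : ∀ i, i ∉ S → f i = 0) (h1 : ∀ i, f i ≤ K) : ∑ i, f i ≤ K * K := by
  classical
  have e : ∑ i, f i = ∑ i ∈ S, f i := by
    symm
    refine Finset.sum_subset (Finset.subset_univ S) fun i _ hi => h0 i hi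
  rw [e]
  calc ∑ i ∈ S, f i ≤ ∑ _i ∈ S, K := Finset.sum_le_sum fun i _ => h1 i
    _ = S.card * K := by rw [Finset.sum_const, smul_eq_mul]
    _ ≤ K * K := Nat.mul_le_mul_right K hS

theorem card_small (K g : ℕ) : (Finset.univ.filter fun i : Fin g => (i : ℕ) < K).card ≤ K := by
  have h := Finset.card_le_card_of_injOn (s := Finset.univ.filter fun i : Fin g => (i : ℕ) < K)
    (t := Finset.range K) (fun i => (i : ℕ)) (by
      intro i hi
      simpa using hi) (by
      intro i _ j _ hij
      exact Fin.ext hij)
  simpa using h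

theorem card_large (K g : ℕ) : (Finset.univ.filter fun i : Fin g => g < (i : ℕ) + K).card ≤ K := by
  have h := Finset.card_le_card_of_injOn (s := Finset.univ.filter fun i : Fin g => g < (i : ℕ) + K)
    (t := Finset.range K) (fun i => g - 1 - (i : ℕ)) (by
      intro i hi
      have h1 : g < (i : ℕ) + K := by simpa using hi
      have h2 := i.2
      simp only [Finset.coe_range, Set.mem_Iio]
      omega) (by
      intro i _ j _ hij
      have h1 := i.2
      have h2 := j.2
      apply Fin.ext
      simp only at hij
      omega)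
  simpa using h

theorem total (hD : 1 ≤ D) (hu : u ≤ D) {q : ℕ} (hK : K = 2 * q + 1) (hg : K ≤ g) :
    ∃ s, s ≤ 2 * (D * (K * K)) + g * ((q + 1) * D + q * u) ∧
      Reach (K * D) u (fun _ : Fin g => K * D) s := by
  have h0 := LR.start (K := K) (u := u) hD (fun i : Fin g => st K 0 0 i) (by
    intro i
    show st K 0 0 i ≤ K
    unfold st; split_ifs <;> omega)
  have h1 := msteps hD hu hK h0 (g - K + 1) (by omega)
  have h2 := LR.end_ hu _ _ h1 (by
    intro i
    have hi := i.2
    show 1 ≤ st K (g - K + 1) 0 i ∧ st K (g - K + 1) 0 i ≤ K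
    unfold st; split_ifs <;> omega)
  have b0 : ∑ i : Fin g, st K 0 0 i ≤ K * K := by
    refine sum_small K g _ _ (card_small K g) ?_ ?_
    · intro i hi
      have : K ≤ (i : ℕ) := by simpa using hi
      show st K 0 0 i = 0
      unfold st; split_ifs <;> omega
    · intro i
      show st K 0 0 i ≤ K
      unfold st; split_ifs <;> omega
  have b1 : ∑ i : Fin g, (K - st K (g - K + 1) 0 i) ≤ K * K := by
    refine sum_small K g _ _ (card_large K g) ?_ ?_
    · intro i hi
      have : (i : ℕ) + K ≤ g := by simpa using hi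
      show K - st K (g - K + 1) 0 i = 0
      unfold st; split_ifs <;> omega
    · intro i
      exact Nat.sub_le _ _
  refine ⟨D * ∑ i : Fin g, st K 0 0 i + (g - K + 1) * ((q + 1) * D + q * u) +
    D * ∑ i : Fin g, (K - st K (g - K + 1) 0 i), ?_, ?_⟩
  rotate_left
  · unfold LR at h2
    have e : (fun _ : Fin g => K * D) = fun i => D * (fun _ : Fin g => K) i := by
      funext i
      exact Nat.mul_comm K D
    rw [e]
    exact h2
  · have c0 := Nat.mul_le_mul_left D b0
    have c1 := Nat.mul_le_mul_left D b1
    have c2 : (g - K + 1) * ((q + 1) * D + q * u) ≤ g * ((q + 1) * D + q * u) :=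
      Nat.mul_le_mul_right _ (by omega)
    omega

end Sched

/-- The staircase. -/
theorem sched (d : ℝ) (hd : 0 < d) : ∃ g K : ℕ, 0 < g ∧ 0 < K ∧ ∀ D : ℕ, 1 ≤ D →
    ∃ s u : ℕ, D ≤ K ^ 3 * (u + 1) ∧ (s : ℝ) ≤ (1 / 2 + d) * g * (K * D : ℕ) ∧
      Reach (K * D) u (fun _ : Fin g => K * D) s := by
  obtain ⟨q, hq⟩ := exists_nat_gt (1 / d)
  have hq1 : 1 < q * d := by rwa [div_lt_iff₀ hd] at hq
  set K : ℕ := 2 * q + 1 with hK
  refine ⟨2 * K ^ 2, K, by positivity, by omega, ?_⟩
  intro D hD
  set u : ℕ := D / K ^ 2 with hu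
  have hKpos : 0 < K := by omega
  have hu1 : K ^ 2 * u ≤ D := Nat.mul_div_le D (K ^ 2)
  have hu2 : D < K ^ 2 * (u + 1) := by
    rw [Nat.mul_add, Nat.mul_one]
    exact Nat.lt_mul_div_succ D (by positivity)
  have hK2 : K ≤ K ^ 2 := by nlinarith
  have huD : u ≤ D := by
    refine le_trans ?_ hu1
    exact Nat.le_mul_of_pos_left u (by positivity)
  obtain ⟨s, hs, hR⟩ := Sched.total (K := K) (g := 2 * K ^ 2) hD huD hK (by omega)
  refine ⟨s, u, ?_, ?_, hR⟩
  · refine le_trans hu2.le ?_
    exact Nat.mul_le_mul_right _ (Nat.pow_le_pow_right hKpos (by norm_num))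
  · have hs' : (s : ℝ) ≤ 2 * (D * (K * K)) + 2 * K ^ 2 * ((q + 1) * D + q * u) := by
      exact_mod_cast hs
    have hKr : (K : ℝ) = 2 * q + 1 := by rw [hK]; push_cast; ring
    have hD0 : (0 : ℝ) < D := by exact_mod_cast hD
    have hu3 : (K : ℝ) ^ 2 * u ≤ D := by exact_mod_cast hu1
    have hK1 : (1 : ℝ) ≤ K := by exact_mod_cast hKpos
    have hq0 : (0 : ℝ) ≤ q := Nat.cast_nonneg q
    have hu0 : (0 : ℝ) ≤ u := Nat.cast_nonneg u
    have hqu : 2 * (q * (u : ℝ)) ≤ D := by
      have : (2 * q : ℝ) ≤ K ^ 2 := by nlinarith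
      nlinarith
    push_cast
    have h3 : (2 : ℝ) * (D * (K * K)) + 2 * K ^ 2 * ((q + 1) * D + q * u) ≤
        2 * K ^ 2 * D * (K / 2 + 2) := by
      have : (2 : ℝ) * K ^ 2 * (q * u) ≤ 2 * K ^ 2 * (D / 2) := by
        refine mul_le_mul_of_nonneg_left (by linarith) (by positivity)
      have h4 : (K : ℝ) / 2 = q + 1 / 2 := by rw [hKr]; ring
      rw [h4]
      nlinarith [this, hD0, sq_nonneg (K : ℝ)]
    have h5 : (2 : ℝ) ≤ d * K := by
      rw [hKr]; nlinarith
    have h6 : (2 : ℝ) * K ^ 2 * D * (K / 2 + 2) ≤ (1 / 2 + d) * (2 * K ^ 2) * (K * D) := by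
      have : (2 : ℝ) * K ^ 2 * D * 2 ≤ 2 * K ^ 2 * D * (d * K) :=
        mul_le_mul_of_nonneg_left h5 (by positivity)
      nlinarith [this]
    linarith

end RMQ
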