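import Pool.Agent.RMQ.Defs

/-!
Row 3 (helper73): from the density theorem to the worst case, with shared translates.
-/

set_option autoImplicit false

open Matrix Finset

namespace RMQ

/-! ### Operations on representations -/

theorem Rep.add {ι : Type} {n s t : ℕ} {B C : ι → Mat n} (hB : Rep s B) (hC : Rep t C) :
    Rep (s + t) (fun i => B i + C i) := by
  obtain ⟨p, y, h⟩ := hB
  obtain ⟨q, z, h'⟩ := hC
  refine ⟨Fin.addCases p q, Fin.addCases y z, fun i => ?_⟩
  beta_reduce
  rw [Fin.sum_univ_add, h i, h' i]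
  simp

theorem Rep.zero {ι : Type} {n : ℕ} : Rep 0 (fun _ : ι => (0 : Mat n)) :=
  ⟨fun _ _ => 0, fun _ => 0, fun i => by simp⟩

theorem Rep.mono {ι : Type} {n s t : ℕ} {B : ι → Mat n} (hB : Rep s B) (hst : s ≤ t) :
    Rep t B := by
  obtain ⟨u, rfl⟩ := Nat.exists_eq_add_of_le hst
  have h0 : Rep u (fun _ : ι => (0 : Mat n)) :=
    ⟨fun _ _ => 0, fun _ => 0, fun i => by simp⟩
  have := hB.add h0
  simpa using this

theorem Rep.pull {ι κ : Type} {n s : ℕ} {B : ι → Mat n} (hB : Rep s B) (f : κ → ι)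
    (w : κ → ZMod 2) : Rep s (fun k => w k • B (f k)) := by
  obtain ⟨p, y, h⟩ := hB
  refine ⟨fun l k => w k * p l (f k), y, fun k => ?_⟩
  beta_reduce
  rw [h (f k), Finset.smul_sum]
  refine Finset.sum_congr rfl fun l _ => ?_
  rw [smul_smul]

theorem Rep.congr {ι : Type} {n s : ℕ} {B C : ι → Mat n} (hB : Rep s B) (h : ∀ i, B i = C i) :
    Rep s C := by
  have : B = C := funext h
  rwa [← this]

theorem Rep.sum {ι κ : Type} {n : ℕ} (S : Finset κ) (s : κ → ℕ) (B : κ → ι → Mat n)
    (h : ∀ k ∈ S, Rep (s k) (B k)) : Rep (∑ k ∈ S, s k) (fun i => ∑ k ∈ S, B k i) := by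
  classical
  induction S using Finset.induction_on with
  | empty => simpa using (Rep.zero : Rep 0 (fun _ : ι => (0 : Mat n)))
  | insert a S ha ih =>
    rw [Finset.sum_insert ha]
    refine ((h a (Finset.mem_insert_self a S)).add
      (ih fun k hk => h k (Finset.mem_insert_of_mem hk))).congr fun i => ?_
    rw [Finset.sum_insert ha]

/-! ### Greedy choice of shared translates -/

theorem greedy {G : Type} [AddCommGroup G] [Fintype G] (Good : G → Prop) [DecidablePred Good]
    {r : ℝ} (hr1 : r ≤ 1)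
    (hG : r * Fintype.card G ≤ ((univ.filter Good).card : ℝ))
    {C : Type} [Fintype C] [DecidableEq C] (b : C → G) (J : ℕ) :
    ∃ F : Fin J → G,
      (((univ : Finset C).filter fun c => ∀ j, ¬ Good (b c + F j)).card : ℝ)
        ≤ (1 - r) ^ J * Fintype.card C := by
  induction J with
  | zero =>
    refine ⟨fun j => j.elim0, ?_⟩
    simp only [pow_zero, one_mul]
    exact_mod_cast Finset.card_le_univ _
  | succ J ih =>
    obtain ⟨F, hF⟩ := ih
    set U : Finset C := (univ : Finset C).filter fun c => ∀ j, ¬ Good (b c + F j) with hU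
    -- double counting
    have hcount : ∑ x : G, ((U.filter fun c => Good (b c + x)).card : ℝ)
        = U.card * ((univ.filter Good).card : ℝ) := by
      have h1 : ∀ x : G, ((U.filter fun c => Good (b c + x)).card : ℝ)
          = ∑ c ∈ U, (if Good (b c + x) then (1 : ℝ) else 0) := by
        intro x
        rw [Finset.card_filter]
        push_cast
        rfl
      simp_rw [h1]
      rw [Finset.sum_comm]
      have h2 : ∀ c ∈ U, ∑ x : G, (if Good (b c + x) then (1 : ℝ) else 0)
          = ((univ.filter Good).card : ℝ) := by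
        intro c _
        rw [Finset.card_filter]
        push_cast
        exact Equiv.sum_comp (Equiv.addLeft (b c)) (fun x => if Good x then (1 : ℝ) else 0)
      rw [Finset.sum_congr rfl h2, Finset.sum_const, nsmul_eq_mul]
    obtain ⟨x, hx⟩ : ∃ x : G, r * U.card ≤ ((U.filter fun c => Good (b c + x)).card : ℝ) := by
      by_contra hcon
      push Not at hcon
      have hlt : ∑ x : G, ((U.filter fun c => Good (b c + x)).card : ℝ)
          < ∑ _x : G, r * (U.card : ℝ) :=
        Finset.sum_lt_sum_of_nonempty ⟨0, mem_univ _⟩ fun x _ => hcon x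
      rw [hcount, Finset.sum_const, nsmul_eq_mul, Finset.card_univ] at hlt
      have h3 : (U.card : ℝ) * (r * Fintype.card G) ≤ U.card * ((univ.filter Good).card : ℝ) :=
        mul_le_mul_of_nonneg_left hG (Nat.cast_nonneg _)
      nlinarith
    refine ⟨Fin.snoc F x, ?_⟩
    have hsub : ((univ : Finset C).filter fun c => ∀ j, ¬ Good (b c + (Fin.snoc F x : Fin (J+1) → G) j))
        = U.filter fun c => ¬ Good (b c + x) := by
      ext c
      simp only [mem_filter, mem_univ, true_and, hU]
      constructor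
      · intro h
        refine ⟨fun j => ?_, ?_⟩
        · have := h (Fin.castSucc j)
          simpa using this
        · have := h (Fin.last J)
          simpa using this
      · rintro ⟨h1, h2⟩ j
        refine Fin.lastCases ?_ (fun i => ?_) j
        · simpa using h2
        · simpa using h1 i
    rw [hsub]
    have hsplit : ((U.filter fun c => Good (b c + x)).card : ℝ)
        + ((U.filter fun c => ¬ Good (b c + x)).card : ℝ) = U.card := by
      exact_mod_cast Finset.card_filter_add_card_filter_not (s := U) (fun c => Good (b c + x))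
    have h4 : ((U.filter fun c => ¬ Good (b c + x)).card : ℝ) ≤ (1 - r) * U.card := by
      linarith
    calc ((U.filter fun c => ¬ Good (b c + x)).card : ℝ) ≤ (1 - r) * U.card := h4
      _ ≤ (1 - r) * ((1 - r) ^ J * Fintype.card C) :=
        mul_le_mul_of_nonneg_left hF (by linarith)
      _ = (1 - r) ^ (J + 1) * Fintype.card C := by ring

/-! ### Tuples of symmetric matrices -/

/-- tuples of symmetric matrices, as an additive group -/
def symG (g n : ℕ) : AddSubgroup (Fin g → Mat n) where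
  carrier := {B | ∀ i, (B i).IsSymm}
  zero_mem' := fun i => by simp
  add_mem' := fun {a b} ha hb i => (ha i).add (hb i)
  neg_mem' := fun {a} ha i => (ha i).neg

theorem mem_symG {g n : ℕ} {B : Fin g → Mat n} : B ∈ symG g n ↔ ∀ i, (B i).IsSymm := Iff.rfl

/-- Shared translates: `h` groups of `g` symmetric matrices. -/
theorem shared {g n s h J : ℕ} {r : ℝ} (hr1 : r ≤ 1)
    (hG : r * (Nat.card {B : Fin g → Mat n // ∀ i, (B i).IsSymm} : ℝ)
      ≤ (Nat.card {B : Fin g → Mat n // (∀ i, (B i).IsSymm) ∧ Rep s B} : ℝ))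
    (hall : ∀ B : Fin g → Mat n, (∀ i, (B i).IsSymm) → Rep (g * (n + 1)) B)
    (B : Fin h → Fin g → Mat n) (hB : ∀ c i, (B c i).IsSymm) :
    ∃ t : ℕ, Rep t (fun p : Fin h × Fin g => B p.1 p.2) ∧
      (t : ℝ) ≤ J * (g * (n + 1) : ℕ) + h * s + (1 - r) ^ J * h * (g * (n + 1) : ℕ) := by
  classical
  set G := symG g n with hGdef
  let Good : G → Prop := fun F => Rep s (F : Fin g → Mat n)
  have e1 : (Nat.card {B : Fin g → Mat n // ∀ i, (B i).IsSymm}) = Fintype.card G := by
    rw [← Nat.card_eq_fintype_card]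
    rfl
  have e2 : (Nat.card {B : Fin g → Mat n // (∀ i, (B i).IsSymm) ∧ Rep s B})
      = (univ.filter Good).card := by
    rw [← Fintype.card_subtype, ← Nat.card_eq_fintype_card]
    refine Nat.card_congr ?_
    exact
      { toFun := fun F => ⟨⟨F.1, F.2.1⟩, F.2.2⟩
        invFun := fun F => ⟨F.1.1, F.1.2, F.2⟩
        left_inv := fun _ => rfl
        right_inv := fun _ => rfl }
  rw [e1, e2] at hG
  obtain ⟨F, hF⟩ := greedy Good hr1 hG (fun c : Fin h => (⟨B c, hB c⟩ : G)) J
  let served : Fin h → Prop := fun c => ∃ j, Good ((⟨B c, hB c⟩ : G) + F j)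
  have hserved : ∀ c, served c ↔ ∃ j, Rep s (fun i => B c i + (F j : Fin g → Mat n) i) :=
    fun c => Iff.rfl
  let w : Fin h → Fin J → ZMod 2 := fun c j =>
    if hc : served c then (if j = hc.choose then 1 else 0) else 0
  let D : Fin h → Fin g → Mat n := fun c i =>
    if hc : served c then B c i + (F hc.choose : Fin g → Mat n) i else B c i
  let cost : Fin h → ℕ := fun c => if served c then s else g * (n + 1)
  have hD : ∀ c, Rep (cost c) (D c) := by
    intro c
    by_cases hc : served c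
    · have h1 : cost c = s := if_pos hc
      rw [h1]
      refine Rep.congr hc.choose_spec fun i => ?_
      simp only [D, dif_pos hc]
      rfl
    · have h1 : cost c = g * (n + 1) := if_neg hc
      rw [h1]
      refine Rep.congr (hall (B c) (hB c)) fun i => ?_
      simp only [D, dif_neg hc]
  have hR1 : Rep (∑ _j : Fin J, g * (n + 1))
      (fun p : Fin h × Fin g => ∑ j : Fin J, w p.1 j • (F j : Fin g → Mat n) p.2) := by
    refine Rep.sum (univ : Finset (Fin J)) (fun _ => g * (n + 1))
      (fun j => fun p : Fin h × Fin g => w p.1 j • (F j : Fin g → Mat n) p.2) fun j _ => ?_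
    exact (hall (F j) (F j).2).pull (fun p : Fin h × Fin g => p.2) (fun p => w p.1 j)
  have hR2 : Rep (∑ c : Fin h, cost c)
      (fun p : Fin h × Fin g => ∑ c : Fin h, (if p.1 = c then (1 : ZMod 2) else 0) • D c p.2) := by
    refine Rep.sum (univ : Finset (Fin h)) cost
      (fun c => fun p : Fin h × Fin g => (if p.1 = c then (1 : ZMod 2) else 0) • D c p.2)
      fun c _ => ?_
    exact (hD c).pull (fun p : Fin h × Fin g => p.2) (fun p => if p.1 = c then (1 : ZMod 2) else 0)
  refine ⟨_, (hR1.add hR2).congr fun p => ?_, ?_⟩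
  · have h2 : (∑ c : Fin h, (if p.1 = c then (1 : ZMod 2) else 0) • D c p.2) = D p.1 p.2 := by
      simp [ite_smul]
    rw [h2]
    by_cases hc : served p.1
    · have h3 : (∑ j : Fin J, w p.1 j • (F j : Fin g → Mat n) p.2)
          = (F hc.choose : Fin g → Mat n) p.2 := by
        simp [w, dif_pos hc, ite_smul]
      rw [h3]
      simp only [D, dif_pos hc]
      rw [add_comm, add_assoc, mat_add_self, add_zero]
    · have h3 : (∑ j : Fin J, w p.1 j • (F j : Fin g → Mat n) p.2) = 0 := by
        simp [w, dif_neg hc]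
      rw [h3]
      simp only [D, dif_neg hc]
      rw [zero_add]
  · have h4 : ((∑ c : Fin h, cost c : ℕ) : ℝ)
        ≤ h * s + (1 - r) ^ J * h * (g * (n + 1) : ℕ) := by
      have h5 : (∑ c : Fin h, cost c) ≤ h * s
          + ((univ : Finset (Fin h)).filter fun c => ¬ served c).card * (g * (n + 1)) := by
        have h6 : ∀ c ∈ (univ : Finset (Fin h)),
            cost c ≤ s + (if ¬ served c then g * (n + 1) else 0) := by
          intro c _
          by_cases hc : served c
          · simp [cost, hc]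
          · simp [cost, hc]
        refine (Finset.sum_le_sum h6).trans ?_
        rw [Finset.sum_add_distrib, ← Finset.sum_filter]
        simp
      have h7 : (((univ : Finset (Fin h)).filter fun c => ¬ served c).card : ℝ)
          ≤ (1 - r) ^ J * h := by
        have h8 : ((univ : Finset (Fin h)).filter fun c => ¬ served c)
            = (univ : Finset (Fin h)).filter
              fun c => ∀ j, ¬ Good ((⟨B c, hB c⟩ : G) + F j) := by
          ext c
          simp [served]
        rw [h8]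
        simpa using hF
      calc ((∑ c : Fin h, cost c : ℕ) : ℝ)
          ≤ ((h * s + ((univ : Finset (Fin h)).filter fun c => ¬ served c).card
              * (g * (n + 1)) : ℕ) : ℝ) := by exact_mod_cast h5
        _ = h * s + (((univ : Finset (Fin h)).filter fun c => ¬ served c).card : ℝ)
              * (g * (n + 1) : ℕ) := by push_cast; ring
        _ ≤ h * s + (1 - r) ^ J * h * (g * (n + 1) : ℕ) := by
          have := mul_le_mul_of_nonneg_right h7 (Nat.cast_nonneg (α := ℝ) (g * (n + 1)))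
          linarith
    have h9 : ((∑ _j : Fin J, g * (n + 1) : ℕ) : ℝ) = J * (g * (n + 1) : ℕ) := by
      simp
    rw [Nat.cast_add, h9]
    linarith

/-! ### Padding -/

theorem Rep.unpad {ι : Type} {n m s : ℕ} (hnm : n ≤ m) {B : ι → Mat m} (hB : Rep s B) :
    Rep s (fun i => (B i).submatrix (Fin.castLE hnm) (Fin.castLE hnm)) := by
  obtain ⟨p, y, h⟩ := hB
  refine ⟨p, fun l a => y l (Fin.castLE hnm a), fun i => ?_⟩
  beta_reduce
  rw [h i]
  ext a b
  simp [Matrix.sum_apply, sq, Matrix.vecMulVec_apply]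

/-- extension of a matrix by zeros -/
def padM {n : ℕ} (m : ℕ) (B : Mat n) : Mat m := fun a b =>
  if h : a.1 < n ∧ b.1 < n then B ⟨a.1, h.1⟩ ⟨b.1, h.2⟩ else 0

theorem padM_symm {n m : ℕ} {B : Mat n} (hB : B.IsSymm) : (padM m B).IsSymm := by
  ext a b
  rw [Matrix.transpose_apply]
  unfold padM
  by_cases h : a.1 < n ∧ b.1 < n
  · rw [dif_pos h, dif_pos h.symm]
    exact hB.apply _ _
  · rw [dif_neg h, dif_neg (fun h' => h h'.symm)]

theorem padM_sub {n m : ℕ} (hnm : n ≤ m) (B : Mat n) :
    (padM m B).submatrix (Fin.castLE hnm) (Fin.castLE hnm) = B := by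
  ext a b
  rw [Matrix.submatrix_apply]
  unfold padM
  rw [dif_pos ⟨a.2, b.2⟩]
  rfl

/-! ### The worst case -/

/-- The density theorem: a positive proportion of the `g`-tuples is cheap. -/
def DensityStatement : Prop := ∀ d : ℝ, 0 < d → ∃ (g K : ℕ) (r : ℝ), 0 < g ∧ 0 < K ∧ 0 < r ∧
  ∃ N : ℕ, ∀ n ≥ N, K ∣ n → ∃ s : ℕ, (s : ℝ) ≤ (1 / 2 + d) * g * n ∧
    r * (Nat.card {B : Fin g → Mat n // ∀ i, (B i).IsSymm} : ℝ)
      ≤ (Nat.card {B : Fin g → Mat n // (∀ i, (B i).IsSymm) ∧ Rep s B} : ℝ)

theorem worst_of (hden : DensityStatement)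
    (hall : ∀ {g n : ℕ} (B : Fin g → Mat n), (∀ i, (B i).IsSymm) → Rep (g * (n + 1)) B)
    (d : ℝ) (hd : 0 < d) :
    ∃ k N : ℕ, 0 < k ∧ ∀ n ≥ N, ∀ B : Fin k → Mat n, (∀ i, (B i).IsSymm) →
      ∃ s : ℕ, Rep s B ∧ (s : ℝ) ≤ (1 / 2 + d) * k * n := by
  obtain ⟨g, K, r0, hg, hK, hr0, N, hN⟩ := hden (d / 4) (by positivity)
  set r : ℝ := min r0 (1 / 2) with hr
  have hrpos : 0 < r := lt_min hr0 (by norm_num)
  have hr1 : r ≤ 1 := (min_le_right _ _).trans (by norm_num)
  obtain ⟨J, hJ⟩ := exists_pow_lt_of_lt_one (show (0 : ℝ) < d / 8 by positivity)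
    (show 1 - r < 1 by linarith)
  obtain ⟨h, hh⟩ := exists_nat_ge (8 * (J : ℝ) / d + 1)
  have hh1 : (J : ℝ) ≤ h * d / 8 := by
    have h1 : 8 * (J : ℝ) / d ≤ h := by linarith
    rw [div_le_iff₀ hd] at h1
    linarith
  have hhpos : 0 < h := by
    have h1 : (0 : ℝ) ≤ 8 * (J : ℝ) / d := by positivity
    have h2 : (0 : ℝ) < h := by linarith
    exact_mod_cast h2
  obtain ⟨N1, hN1⟩ := exists_nat_ge ((1 / 2 + 3 * d / 4) * K / (d / 4))
  refine ⟨h * g, max N N1, Nat.mul_pos hhpos hg, fun n hn B hB => ?_⟩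
  set m : ℕ := K * (n / K + 1) with hm
  have hnm : n < m := Nat.lt_mul_div_succ n hK
  have hmn : m ≤ n + K := by
    rw [hm, Nat.mul_add, Nat.mul_one]
    exact Nat.add_le_add_right (Nat.mul_div_le n K) K
  have hKm : K ∣ m := Dvd.intro _ rfl
  have hNm : m ≥ N := (le_of_max_le_left hn).trans hnm.le
  obtain ⟨s, hs, hcard⟩ := hN m hNm hKm
  have hcard' : r * (Nat.card {B : Fin g → Mat m // ∀ i, (B i).IsSymm} : ℝ)
      ≤ (Nat.card {B : Fin g → Mat m // (∀ i, (B i).IsSymm) ∧ Rep s B} : ℝ) :=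
    (mul_le_mul_of_nonneg_right (min_le_left _ _) (Nat.cast_nonneg _)).trans hcard
  obtain ⟨t, ht, htb⟩ := shared (J := J) hr1 hcard' hall
    (fun (c : Fin h) (a : Fin g) => padM m (B (finProdFinEquiv (c, a))))
    (fun c a => padM_symm (hB _))
  refine ⟨t, ?_, ?_⟩
  · have h1 := (ht.pull (fun i : Fin (h * g) => finProdFinEquiv.symm i) (fun _ => 1)).unpad hnm.le
    refine h1.congr fun i => ?_
    simp only [one_smul]
    have h2 : finProdFinEquiv ((finProdFinEquiv.symm i).1, (finProdFinEquiv.symm i).2) = i :=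
      finProdFinEquiv.apply_symm_apply i
    rw [h2]
    exact padM_sub hnm.le (B i)
  · have hgR : (0 : ℝ) < g := by exact_mod_cast hg
    have hhR : (0 : ℝ) < h := by exact_mod_cast hhpos
    have hmR : (1 : ℝ) ≤ m := by
      have : 1 ≤ m := by omega
      exact_mod_cast this
    have hgm : ((g * (m + 1) : ℕ) : ℝ) ≤ 2 * (g * m) := by
      push_cast
      nlinarith
    have hgm0 : (0 : ℝ) ≤ ((g * (m + 1) : ℕ) : ℝ) := Nat.cast_nonneg _
    have hX : (0 : ℝ) ≤ g * m := by positivity
    have a1 : (J : ℝ) * ((g * (m + 1) : ℕ) : ℝ) ≤ d / 4 * (h * (g * m)) := by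
      calc (J : ℝ) * ((g * (m + 1) : ℕ) : ℝ) ≤ (h * d / 8) * (2 * (g * m)) :=
            mul_le_mul hh1 hgm hgm0 (by positivity)
        _ = d / 4 * (h * (g * m)) := by ring
    have a2 : (1 - r) ^ J * h * ((g * (m + 1) : ℕ) : ℝ) ≤ d / 4 * (h * (g * m)) := by
      have h0 : (0 : ℝ) ≤ (1 - r) ^ J := pow_nonneg (by linarith) _
      calc (1 - r) ^ J * h * ((g * (m + 1) : ℕ) : ℝ) ≤ (d / 8 * h) * (2 * (g * m)) :=
            mul_le_mul (mul_le_mul_of_nonneg_right hJ.le hhR.le) hgm hgm0 (by positivity)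
        _ = d / 4 * (h * (g * m)) := by ring
    have a3 : (h : ℝ) * s ≤ (1 / 2 + d / 4) * (h * (g * m)) := by
      calc (h : ℝ) * s ≤ h * ((1 / 2 + d / 4) * g * m) := mul_le_mul_of_nonneg_left hs hhR.le
        _ = (1 / 2 + d / 4) * (h * (g * m)) := by ring
    have a4 : (t : ℝ) ≤ (1 / 2 + 3 * d / 4) * (h * (g * m)) := by
      calc (t : ℝ) ≤ J * (g * (m + 1) : ℕ) + h * s + (1 - r) ^ J * h * (g * (m + 1) : ℕ) := htb
        _ ≤ d / 4 * (h * (g * m)) + (1 / 2 + d / 4) * (h * (g * m)) + d / 4 * (h * (g * m)) := by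
            linarith
        _ = (1 / 2 + 3 * d / 4) * (h * (g * m)) := by ring
    have a5 : (m : ℝ) ≤ n + K := by exact_mod_cast hmn
    have a6 : (1 / 2 + 3 * d / 4) * K ≤ d / 4 * n := by
      have h1 : (1 / 2 + 3 * d / 4) * K / (d / 4) ≤ n :=
        hN1.trans (by exact_mod_cast le_of_max_le_right hn)
      rw [div_le_iff₀ (by positivity)] at h1
      linarith
    have a7 : (1 / 2 + 3 * d / 4) * (m : ℝ) ≤ (1 / 2 + d) * n := by
      have h1 : (1 / 2 + 3 * d / 4) * (m : ℝ) ≤ (1 / 2 + 3 * d / 4) * (n + K) :=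
        mul_le_mul_of_nonneg_left a5 (by positivity)
      nlinarith
    calc (t : ℝ) ≤ (1 / 2 + 3 * d / 4) * (h * (g * m)) := a4
      _ = (h * g) * ((1 / 2 + 3 * d / 4) * m) := by ring
      _ ≤ (h * g) * ((1 / 2 + d) * n) := mul_le_mul_of_nonneg_left a7 (by positivity)
      _ = (1 / 2 + d) * ((h * g : ℕ) : ℝ) * n := by push_cast; ring

end RMQ
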