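import Mathlib

/-!
Symmetric matrices over the field with two elements: reductions by squares `y yᵀ`.
-/

set_option autoImplicit false

open Matrix

namespace RMQ

abbrev F2 := ZMod 2
abbrev Vec (n : ℕ) := Fin n → ZMod 2
abbrev Mat (n : ℕ) := Matrix (Fin n) (Fin n) (ZMod 2)

variable {n : ℕ}

/-- The square `y yᵀ`. -/
def sq (y : Vec n) : Mat n := Matrix.vecMulVec y y

theorem sq_symm (y : Vec n) : (sq y).IsSymm := by
  unfold sq Matrix.IsSymm
  rw [Matrix.transpose_vecMulVec]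

theorem sq_mulVec (y v : Vec n) : sq y *ᵥ v = (y ⬝ᵥ v) • y := by
  unfold sq
  rw [Matrix.vecMulVec_mulVec]
  ext i
  simp [mul_comm]

theorem sq_diag (y : Vec n) : (sq y).diag = y := by
  ext i
  have h : ∀ a : ZMod 2, a * a = a := by decide
  simp [sq, Matrix.vecMulVec_apply, h]

theorem sq_zero : sq (0 : Vec n) = 0 := by
  ext i j; simp [sq, Matrix.vecMulVec_apply]

theorem two_mul_self (a : ZMod 2) : a + a = 0 := CharTwo.add_self_eq_zero a

theorem vec_add_self (v : Vec n) : v + v = 0 := by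
  ext i; exact two_mul_self _

theorem vec_neg (v : Vec n) : -v = v := by
  ext i
  exact ZMod.neg_eq_self_mod_two _

theorem mat_add_self (B : Mat n) : B + B = 0 := by
  ext i j; exact two_mul_self _

theorem add_sq_sq (B : Mat n) (y : Vec n) : B + sq y + sq y = B := by
  rw [add_assoc, mat_add_self, add_zero]

theorem one_or_zero (a : ZMod 2) : a = 0 ∨ a = 1 := by
  revert a; decide

theorem ne_zero_iff (a : ZMod 2) : a ≠ 0 ↔ a = 1 := by
  revert a; decide

theorem symm_dot {B : Mat n} (hB : B.IsSymm) (x z : Vec n) : x ⬝ᵥ (B *ᵥ z) = (B *ᵥ x) ⬝ᵥ z := by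
  rw [Matrix.dotProduct_mulVec, ← Matrix.mulVec_transpose, hB.eq]

/-- the quadratic form of a symmetric matrix is linear -/
theorem quad {B : Mat n} (hB : B.IsSymm) (x : Vec n) : x ⬝ᵥ (B *ᵥ x) = B.diag ⬝ᵥ x := by
  have h : ∀ x y : Vec n, (x + y) ⬝ᵥ (B *ᵥ (x + y)) = x ⬝ᵥ (B *ᵥ x) + y ⬝ᵥ (B *ᵥ y) := by
    intro x y
    rw [Matrix.mulVec_add, dotProduct_add, add_dotProduct, add_dotProduct]
    have h1 : y ⬝ᵥ (B *ᵥ x) = x ⬝ᵥ (B *ᵥ y) := by
      rw [symm_dot hB, dotProduct_comm]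
    rw [h1]
    have h2 := two_mul_self (x ⬝ᵥ (B *ᵥ y))
    linear_combination h2
  let φ : Vec n →+ ZMod 2 := AddMonoidHom.mk' (fun x => x ⬝ᵥ (B *ᵥ x)) h
  let ψ : Vec n →+ ZMod 2 := AddMonoidHom.mk' (fun x => B.diag ⬝ᵥ x) (fun x y => by
    rw [dotProduct_add])
  have h3 : φ = ψ := by
    refine AddMonoidHom.functions_ext' _ _ _ fun i => ?_
    refine AddMonoidHom.ext fun a => ?_
    change (Pi.single i a) ⬝ᵥ (B *ᵥ (Pi.single i a)) = B.diag ⬝ᵥ (Pi.single i a)
    rcases one_or_zero a with rfl | rfl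
    · simp
    · simp
  exact DFunLike.congr_fun h3 x

/-- the range of a symmetric matrix -/
def rng (B : Mat n) : Submodule (ZMod 2) (Vec n) := LinearMap.range B.mulVecLin

theorem mem_rng {B : Mat n} {y : Vec n} : y ∈ rng B ↔ ∃ x, B *ᵥ x = y := by
  unfold rng
  rw [LinearMap.mem_range]
  rfl

theorem mulVec_mem (B : Mat n) (x : Vec n) : B *ᵥ x ∈ rng B := mem_rng.2 ⟨x, rfl⟩

/-- a vector which is orthogonal to the kernel is in the range -/
theorem mem_rng_of {B : Mat n} (hB : B.IsSymm) {y : Vec n}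
    (h : ∀ z, B *ᵥ z = 0 → z ⬝ᵥ y = 0) : y ∈ rng B := by
  by_contra hy
  obtain ⟨f, hf1, hf2⟩ := Submodule.exists_le_ker_of_notMem hy
  set z : Vec n := fun i => f (Pi.single i 1) with hz
  have hfz : ∀ v, f v = z ⬝ᵥ v := by
    intro v
    rw [LinearMap.pi_apply_eq_sum_univ f v]
    simp only [dotProduct, smul_eq_mul]
    refine Finset.sum_congr rfl fun i _ => ?_
    rw [mul_comm]
    congr 1
    rw [hz]
    congr 1
    ext j
    simp [Pi.single_apply, eq_comm]
  apply hf1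
  rw [hfz]
  apply h
  funext i
  have h1 : f (B *ᵥ (Pi.single i 1)) = 0 := hf2 (mulVec_mem B _)
  rw [hfz, symm_dot hB] at h1
  simpa using h1

theorem dot_eq_zero {B : Mat n} (hB : B.IsSymm) {y z : Vec n} (hy : y ∈ rng B)
    (hz : B *ᵥ z = 0) : z ⬝ᵥ y = 0 := by
  obtain ⟨x, rfl⟩ := mem_rng.1 hy
  rw [symm_dot hB, hz, zero_dotProduct]

theorem diag_mem {B : Mat n} (hB : B.IsSymm) : B.diag ∈ rng B := by
  refine mem_rng_of hB fun z hz => ?_
  rw [dotProduct_comm, ← quad hB, hz, dotProduct_zero]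

/-- `y` can be subtracted from `B`: the rank goes down. -/
def Red (B : Mat n) (y : Vec n) : Prop := ∃ x, B *ᵥ x = y ∧ x ⬝ᵥ y = 1

theorem Red.mem {B : Mat n} {y : Vec n} (h : Red B y) : y ∈ rng B := by
  obtain ⟨x, hx, -⟩ := h
  exact mem_rng.2 ⟨x, hx⟩

/-- a vector `w` with `B w = diag B` -/
noncomputable def wv (B : Mat n) : Vec n := by
  classical
  exact if h : ∃ w, B *ᵥ w = B.diag then h.choose else 0

theorem wv_spec {B : Mat n} (hB : B.IsSymm) : B *ᵥ wv B = B.diag := by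
  have h : ∃ w, B *ᵥ w = B.diag := mem_rng.1 (diag_mem hB)
  unfold wv
  rw [dif_pos h]
  exact h.choose_spec

theorem wv_dot {B : Mat n} (hB : B.IsSymm) {x y : Vec n} (hx : B *ᵥ x = y) :
    wv B ⬝ᵥ y = x ⬝ᵥ y := by
  rw [← hx, symm_dot hB, wv_spec hB, quad hB]

theorem red_iff {B : Mat n} (hB : B.IsSymm) {y : Vec n} :
    Red B y ↔ y ∈ rng B ∧ wv B ⬝ᵥ y = 1 := by
  constructor
  · rintro ⟨x, hx, h1⟩
    exact ⟨mem_rng.2 ⟨x, hx⟩, by rw [wv_dot hB hx, h1]⟩
  · rintro ⟨hy, h1⟩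
    obtain ⟨x, hx⟩ := mem_rng.1 hy
    exact ⟨x, hx, by rw [← wv_dot hB hx, h1]⟩

/-- dimension of the range -/
noncomputable def rk (B : Mat n) : ℕ := Module.finrank (ZMod 2) (rng B)

theorem rk_add_ker (B : Mat n) :
    rk B + Module.finrank (ZMod 2) (LinearMap.ker B.mulVecLin) = n := by
  have h := LinearMap.finrank_range_add_finrank_ker B.mulVecLin
  rw [Module.finrank_fin_fun] at h
  exact h

theorem rk_le (B : Mat n) : rk B ≤ n := by
  have := rk_add_ker B
  omega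

theorem mem_ker {B : Mat n} {x : Vec n} : x ∈ LinearMap.ker B.mulVecLin ↔ B *ᵥ x = 0 := by
  rw [LinearMap.mem_ker]; rfl

/-- rank after a reduction -/
theorem Red.rk {B : Mat n} (hB : B.IsSymm) {y : Vec n} (h : Red B y) :
    RMQ.rk (B + sq y) + 1 = RMQ.rk B ∧ y ∉ rng (B + sq y) := by
  obtain ⟨x, hx, h1⟩ := h
  have hB' : (B + sq y).IsSymm := hB.add (sq_symm y)
  have hyx : y ⬝ᵥ x = 1 := by rw [dotProduct_comm, h1]
  have hker : (B + sq y) *ᵥ x = 0 := by
    rw [Matrix.add_mulVec, hx, sq_mulVec, hyx, one_smul, vec_add_self]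
  have hnot : y ∉ rng (B + sq y) := fun hmem => by
    have := dot_eq_zero hB' hmem hker
    rw [h1] at this
    exact one_ne_zero this
  refine ⟨?_, hnot⟩
  have hx0 : B *ᵥ x ≠ 0 := by
    rw [hx]
    rintro rfl
    simp at h1
  have e : LinearMap.ker (B + sq y).mulVecLin =
      LinearMap.ker B.mulVecLin ⊔ Submodule.span (ZMod 2) {x} := by
    apply le_antisymm
    · intro v hv
      rw [mem_ker, Matrix.add_mulVec, sq_mulVec] at hv
      rw [Submodule.mem_sup]
      refine ⟨v - (y ⬝ᵥ v) • x, ?_, (y ⬝ᵥ v) • x,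
        Submodule.smul_mem _ _ (Submodule.mem_span_singleton_self x), by abel⟩
      rw [mem_ker, Matrix.mulVec_sub, Matrix.mulVec_smul, hx, sub_eq_add_neg, vec_neg]
      exact hv
    · rw [sup_le_iff]
      constructor
      · intro v hv
        rw [mem_ker] at hv ⊢
        rw [Matrix.add_mulVec, hv, sq_mulVec, zero_add, ← hx, dotProduct_comm, symm_dot hB, hv,
          zero_dotProduct, zero_smul]
      · rw [Submodule.span_singleton_le_iff_mem, mem_ker]
        exact hker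
  have hfin : Module.finrank (ZMod 2) (LinearMap.ker (B + sq y).mulVecLin) =
      Module.finrank (ZMod 2) (LinearMap.ker B.mulVecLin) + 1 := by
    rw [e]
    have h2 := Submodule.finrank_sup_add_finrank_inf_eq (LinearMap.ker B.mulVecLin)
      (Submodule.span (ZMod 2) {x})
    have h3 : LinearMap.ker B.mulVecLin ⊓ Submodule.span (ZMod 2) {x} = ⊥ := by
      rw [← disjoint_iff, Submodule.disjoint_span_singleton']
      · rw [mem_ker]; exact hx0
      · rintro rfl
        simp at hx0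
    rw [h3, finrank_bot, finrank_span_singleton] at h2
    · exact h2
    · rintro rfl
      simp at hx0
  have h4 := rk_add_ker B
  have h5 := rk_add_ker (B + sq y)
  omega

/-- the inverse step -/
theorem red_add {B : Mat n} (hB : B.IsSymm) {y : Vec n} (hy : y ∉ rng B) :
    Red (B + sq y) y := by
  by_contra hcon
  apply hy
  refine mem_rng_of hB fun z hz => ?_
  by_contra h0
  rw [← ne_eq, ne_zero_iff] at h0
  apply hcon
  refine ⟨z, ?_, h0⟩
  rw [Matrix.add_mulVec, hz, sq_mulVec, dotProduct_comm, h0, one_smul, zero_add]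

theorem rk_add {B : Mat n} (hB : B.IsSymm) {y : Vec n} (hy : y ∉ rng B) :
    rk (B + sq y) = rk B + 1 := by
  have h := (Red.rk (hB.add (sq_symm y)) (red_add hB hy)).1
  rw [add_sq_sq] at h
  omega

/-- neutral steps -/
theorem neutral {B : Mat n} (hB : B.IsSymm) {x z : Vec n} (hx : B *ᵥ x = z) (h0 : x ⬝ᵥ z = 0) :
    rng (B + sq z) = rng B ∧ ∀ y ∈ rng B, wv (B + sq z) ⬝ᵥ y = wv B ⬝ᵥ y + x ⬝ᵥ y := by
  have hB' : (B + sq z).IsSymm := hB.add (sq_symm z)
  have hz : z ∈ rng B := mem_rng.2 ⟨x, hx⟩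
  have key : ∀ v, (B + sq z) *ᵥ (v + (x ⬝ᵥ (B *ᵥ v)) • x) = B *ᵥ v := by
    intro v
    have h1 : z ⬝ᵥ v = x ⬝ᵥ (B *ᵥ v) := by rw [← hx, ← symm_dot hB]
    have h2 : z ⬝ᵥ x = 0 := by rw [dotProduct_comm, h0]
    rw [Matrix.add_mulVec, Matrix.mulVec_add, Matrix.mulVec_smul, hx, sq_mulVec, dotProduct_add,
      dotProduct_smul, h1, h2, smul_zero, add_zero, add_assoc, vec_add_self, add_zero]
  have hr : rng (B + sq z) = rng B := by
    apply le_antisymm
    · intro y hy
      obtain ⟨v, rfl⟩ := mem_rng.1 hy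
      rw [Matrix.add_mulVec, sq_mulVec]
      exact Submodule.add_mem _ (mulVec_mem B v) (Submodule.smul_mem _ _ hz)
    · intro y hy
      obtain ⟨v, rfl⟩ := mem_rng.1 hy
      rw [← key v]
      exact mulVec_mem _ _
  refine ⟨hr, ?_⟩
  intro y hy
  obtain ⟨v, rfl⟩ := mem_rng.1 hy
  rw [wv_dot hB' (key v), wv_dot hB rfl, add_dotProduct, smul_dotProduct, smul_eq_mul]
  have h3 : ∀ a : ZMod 2, a * a = a := by decide
  rw [h3]

end RMQ
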