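import Pool.Agent.RMQ.Defs

/-!
Counting symmetric matrices over the field with two elements by rank.
-/

set_option autoImplicit false

open Matrix

namespace RMQ

/-- double counting along an involutive family of maps -/
theorem dc {α β : Type} [DecidableEq α] (S T : Finset α) (Y : Finset β)
    (f : α → β → α) (P Q : α → β → Prop) [∀ x, DecidablePred (P x)] [∀ x, DecidablePred (Q x)]
    (hf : ∀ x ∈ S, ∀ y ∈ Y, P x y → f x y ∈ T ∧ Q (f x y) y ∧ f (f x y) y = x) (a b : ℕ)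
    (ha : ∀ x ∈ S, a ≤ (Y.filter (fun y => P x y)).card)
    (hb : ∀ x ∈ T, (Y.filter (fun y => Q x y)).card ≤ b) :
    S.card * a ≤ T.card * b := by
  classical
  have h1 : S.card * a ≤ (S.sigma fun x => Y.filter (fun y => P x y)).card := by
    rw [Finset.card_sigma, ← smul_eq_mul, ← Finset.sum_const]
    exact Finset.sum_le_sum ha
  have h2 : (T.sigma fun x => Y.filter (fun y => Q x y)).card ≤ T.card * b := by
    rw [Finset.card_sigma, ← smul_eq_mul, ← Finset.sum_const]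
    exact Finset.sum_le_sum hb
  refine h1.trans (le_trans ?_ h2)
  refine Finset.card_le_card_of_injOn (fun z => ⟨f z.1 z.2, z.2⟩) ?_ ?_
  · rintro ⟨x, y⟩ hz
    have hz' := Finset.mem_sigma.1 (Finset.mem_coe.1 hz)
    have hz2 := Finset.mem_filter.1 hz'.2
    have := hf x hz'.1 y hz2.1 hz2.2
    rw [Finset.mem_coe, Finset.mem_sigma, Finset.mem_filter]
    exact ⟨this.1, hz2.1, this.2.1⟩
  · rintro ⟨x, y⟩ hz ⟨x', y'⟩ hz' he
    have hz1 := Finset.mem_sigma.1 (Finset.mem_coe.1 hz)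
    have hz2 := Finset.mem_filter.1 hz1.2
    have hz1' := Finset.mem_sigma.1 (Finset.mem_coe.1 hz')
    have hz2' := Finset.mem_filter.1 hz1'.2
    simp only [Sigma.mk.injEq, heq_eq_eq] at he
    obtain ⟨he1, he2⟩ := he
    have e1 := (hf x hz1.1 y hz2.1 hz2.2).2.2
    have e2 := (hf x' hz1'.1 y' hz2'.1 hz2'.2).2.2
    subst he2
    rw [he1, e2] at e1
    subst e1
    rfl

variable {n : ℕ}

theorem card_sub (U : Submodule (ZMod 2) (Vec n)) [DecidablePred (fun y => y ∈ U)] :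
    (Finset.univ.filter (fun y : Vec n => y ∈ U)).card = 2 ^ Module.finrank (ZMod 2) U := by
  classical
  have h := Module.card_eq_pow_finrank (K := ZMod 2) (V := U)
  rw [ZMod.card] at h
  rw [← h, Fintype.card_subtype]

/-- fibres of linear maps on subspaces -/
theorem fib {M : Type} [AddCommGroup M] [Module (ZMod 2) M] [Fintype M] [DecidableEq M]
    (U : Submodule (ZMod 2) (Vec n)) [DecidablePred (fun y => y ∈ U)]
    (L : Vec n →ₗ[ZMod 2] M) (y0 : Vec n) (hy0 : y0 ∈ U) :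
    2 ^ Module.finrank (ZMod 2) U ≤
      (Finset.univ.filter (fun y : Vec n => y ∈ U ∧ L y = L y0)).card * Fintype.card M := by
  classical
  rw [← card_sub U]
  refine (Finset.card_le_mul_card_image (f := fun y => L y) _ _ ?_).trans
    (Nat.mul_le_mul_left _ (Finset.card_le_univ _))
  intro c hc
  obtain ⟨y1, hy1, rfl⟩ := Finset.mem_image.1 hc
  rw [Finset.mem_filter] at hy1
  refine Finset.card_le_card_of_injOn (fun y => y + (y0 - y1)) ?_ ?_
  · intro y hy
    rw [Finset.mem_coe, Finset.mem_filter, Finset.mem_filter] at hy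
    rw [Finset.mem_coe, Finset.mem_filter]
    refine ⟨Finset.mem_univ _, U.add_mem hy.1.2 (U.sub_mem hy0 hy1.2), ?_⟩
    rw [map_add, map_sub, hy.2]
    abel
  · intro y _ y' _ h
    exact add_right_cancel h

/-- the functional `y ↦ w ⬝ᵥ y` -/
def dot (w : Vec n) : Vec n →ₗ[ZMod 2] ZMod 2 where
  toFun y := w ⬝ᵥ y
  map_add' := by intro x y; exact dotProduct_add _ _ _
  map_smul' := by intro c x; simp [dotProduct_smul]

theorem fib1 (U : Submodule (ZMod 2) (Vec n)) [DecidablePred (fun y => y ∈ U)] (w : Vec n)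
    [DecidablePred (fun y : Vec n => y ∈ U ∧ w ⬝ᵥ y = 1)]
    (h : ∃ y ∈ U, w ⬝ᵥ y ≠ 0) :
    2 ^ Module.finrank (ZMod 2) U ≤
      (Finset.univ.filter (fun y : Vec n => y ∈ U ∧ w ⬝ᵥ y = 1)).card * 2 := by
  classical
  obtain ⟨y0, hy0, h1⟩ := h
  rw [ne_zero_iff] at h1
  have h2 := fib U (dot w) y0 hy0
  rw [ZMod.card] at h2
  have e : (dot w) y0 = 1 := h1
  rw [e] at h2
  refine h2.trans (le_of_eq ?_)
  congr 2
  ext y
  simp only [Finset.mem_filter]
  rfl

theorem fib2 (U : Submodule (ZMod 2) (Vec n)) [DecidablePred (fun y => y ∈ U)] (w v : Vec n)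
    [DecidablePred (fun y : Vec n => y ∈ U ∧ w ⬝ᵥ y = 1 ∧ v ⬝ᵥ y = 1)]
    (h : ∃ y ∈ U, w ⬝ᵥ y ≠ 0) (h' : ∃ y ∈ U, v ⬝ᵥ y ≠ 0) :
    2 ^ Module.finrank (ZMod 2) U ≤
      (Finset.univ.filter (fun y : Vec n => y ∈ U ∧ w ⬝ᵥ y = 1 ∧ v ⬝ᵥ y = 1)).card * 4 := by
  classical
  obtain ⟨y0, hy0, h1, h1'⟩ : ∃ y ∈ U, w ⬝ᵥ y = 1 ∧ v ⬝ᵥ y = 1 := by
    obtain ⟨y1, hy1, h1⟩ := h
    obtain ⟨y2, hy2, h2⟩ := h'
    rw [ne_zero_iff] at h1 h2
    rcases one_or_zero (v ⬝ᵥ y1) with h3 | h3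
    · rcases one_or_zero (w ⬝ᵥ y2) with h4 | h4
      · exact ⟨y1 + y2, U.add_mem hy1 hy2, by rw [dotProduct_add, h1, h4, add_zero],
          by rw [dotProduct_add, h3, h2, zero_add]⟩
      · exact ⟨y2, hy2, h4, h2⟩
    · exact ⟨y1, hy1, h1, h3⟩
  have h2 := fib U ((dot w).prod (dot v)) y0 hy0
  rw [Fintype.card_prod, ZMod.card] at h2
  have e : ∀ y, ((dot w).prod (dot v)) y = ((dot w).prod (dot v)) y0 ↔
      w ⬝ᵥ y = 1 ∧ v ⬝ᵥ y = 1 := by
    intro y
    change ((w ⬝ᵥ y, v ⬝ᵥ y) : ZMod 2 × ZMod 2) = (w ⬝ᵥ y0, v ⬝ᵥ y0) ↔ _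
    rw [h1, h1', Prod.mk.injEq]
  simp only [e] at h2
  convert h2 using 3

/-- dual count: vectors with prescribed products with all elements of `U` -/
theorem perp_le (U : Submodule (ZMod 2) (Vec n)) (u : ℕ) (hu : u ≤ Module.finrank (ZMod 2) U)
    (φ : Vec n → ZMod 2) [DecidablePred (fun x : Vec n => ∀ y ∈ U, x ⬝ᵥ y = φ y)] :
    (Finset.univ.filter (fun x : Vec n => ∀ y ∈ U, x ⬝ᵥ y = φ y)).card ≤ 2 ^ (n - u) := by
  classical
  by_cases hne : ∃ x0 : Vec n, ∀ y ∈ U, x0 ⬝ᵥ y = φ y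
  swap
  · have : Finset.univ.filter (fun x : Vec n => ∀ y ∈ U, x ⬝ᵥ y = φ y) = ∅ := by
      rw [Finset.filter_eq_empty_iff]
      intro x _ hx
      exact hne ⟨x, hx⟩
    rw [this]
    simp
  obtain ⟨x0, hx0⟩ := hne
  let L : Vec n →ₗ[ZMod 2] Module.Dual (ZMod 2) U :=
    (U.subtype.dualMap).comp (dotProductEquiv (ZMod 2) (Fin n)).toLinearMap
  have hL : ∀ x (y : U), L x y = x ⬝ᵥ (y : Vec n) := by
    intro x y
    rfl
  have hsurj : Function.Surjective L := by
    have h1 : Function.Surjective (U.subtype.dualMap) :=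
      LinearMap.dualMap_surjective_of_injective (Submodule.injective_subtype U)
    exact h1.comp (dotProductEquiv (ZMod 2) (Fin n)).surjective
  have hrank := LinearMap.finrank_range_add_finrank_ker L
  rw [LinearMap.range_eq_top.2 hsurj, finrank_top, Subspace.dual_finrank_eq,
    Module.finrank_fin_fun] at hrank
  have hk : Module.finrank (ZMod 2) (LinearMap.ker L) ≤ n - u := by omega
  calc (Finset.univ.filter (fun x : Vec n => ∀ y ∈ U, x ⬝ᵥ y = φ y)).card
      ≤ (Finset.univ.filter (fun x : Vec n => x ∈ LinearMap.ker L)).card := by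
        refine Finset.card_le_card_of_injOn (fun x => x - x0) ?_ ?_
        · intro x hx
          rw [Finset.mem_coe, Finset.mem_filter] at hx ⊢
          refine ⟨Finset.mem_univ _, ?_⟩
          rw [LinearMap.mem_ker]
          ext y
          rw [hL, sub_dotProduct, hx.2 y y.2, hx0 y y.2, sub_self]
          rfl
        · intro x _ x' _ h
          exact sub_left_injective h
    _ = 2 ^ Module.finrank (ZMod 2) (LinearMap.ker L) := card_sub _
    _ ≤ 2 ^ (n - u) := Nat.pow_le_pow_right (by norm_num) hk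

end RMQ
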