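import Pool.Agent.RMQ.Count

/-!
Counting symmetric matrices over the field with two elements by rank, continued.
-/

set_option autoImplicit false

open Matrix

namespace RMQ

variable {n : ℕ}

open Classical in
/-- symmetric matrices of rank `k` with non-zero diagonal -/
noncomputable def NA (n k : ℕ) : Finset (Mat n) :=
  Finset.univ.filter (fun B => B.IsSymm ∧ rk B = k ∧ B.diag ≠ 0)

open Classical in
/-- symmetric matrices of rank `k` with zero diagonal -/
noncomputable def AL (n k : ℕ) : Finset (Mat n) :=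
  Finset.univ.filter (fun B => B.IsSymm ∧ rk B = k ∧ B.diag = 0)

theorem mem_NA {k : ℕ} {B : Mat n} : B ∈ NA n k ↔ B.IsSymm ∧ rk B = k ∧ B.diag ≠ 0 := by
  classical
  unfold NA
  rw [Finset.mem_filter]
  exact ⟨fun h => h.2, fun h => ⟨Finset.mem_univ _, h⟩⟩

theorem mem_AL {k : ℕ} {B : Mat n} : B ∈ AL n k ↔ B.IsSymm ∧ rk B = k ∧ B.diag = 0 := by
  classical
  unfold AL
  rw [Finset.mem_filter]
  exact ⟨fun h => h.2, fun h => ⟨Finset.mem_univ _, h⟩⟩

/-- for a matrix with non-zero diagonal the functional on the range is non-zero -/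
theorem exists_red {B : Mat n} (hB : B.IsSymm) (hd : B.diag ≠ 0) :
    ∃ y ∈ rng B, wv B ⬝ᵥ y ≠ 0 := by
  obtain ⟨i, hi⟩ := Function.ne_iff.1 hd
  refine ⟨B *ᵥ (Pi.single i 1), mulVec_mem _ _, ?_⟩
  rw [wv_dot hB rfl, quad hB]
  simpa using hi

theorem diag_add_sq (B : Mat n) (y : Vec n) : (B + sq y).diag = B.diag + y := by
  rw [Matrix.diag_add, sq_diag]

theorem diag_add_sq_ne {B : Mat n} {y : Vec n} (h : y ≠ B.diag) : (B + sq y).diag ≠ 0 := by
  rw [diag_add_sq]
  intro h0
  apply h
  have : B.diag + y + y = y := by rw [h0, zero_add]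
  rw [add_assoc, vec_add_self, add_zero] at this
  exact this.symm

open Classical in
/-- number of reductions -/
theorem card_red {B : Mat n} (hB : B.IsSymm) (hd : B.diag ≠ 0) {k : ℕ} (hk : rk B = k + 1) :
    2 ^ k ≤ (Finset.univ.filter (fun y : Vec n => Red B y)).card := by
  have h := fib1 (rng B) (wv B) (exists_red hB hd)
  have e : (Finset.univ.filter (fun y : Vec n => y ∈ rng B ∧ wv B ⬝ᵥ y = 1)) =
      Finset.univ.filter (fun y : Vec n => Red B y) := by
    ext y
    simp only [Finset.mem_filter]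
    rw [red_iff hB]
  rw [e] at h
  unfold rk at hk
  rw [hk, pow_succ] at h
  exact Nat.le_of_mul_le_mul_right h (by norm_num)

open Classical in
theorem card_red_ge {B : Mat n} (hB : B.IsSymm) (hd : B.diag ≠ 0) {k : ℕ} (hk : rk B = k + 1) :
    2 ^ k - 1 ≤ (Finset.univ.filter (fun y : Vec n => Red B y ∧ y ≠ B.diag)).card := by
  have h := card_red hB hd hk
  have e : (Finset.univ.filter (fun y : Vec n => Red B y ∧ y ≠ B.diag)) =
      (Finset.univ.filter (fun y : Vec n => Red B y)).erase B.diag := by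
    ext y
    simp only [Finset.mem_filter, Finset.mem_erase, Finset.mem_univ, true_and]
    tauto
  rw [e]
  have := Finset.pred_card_le_card_erase (s := Finset.univ.filter (fun y : Vec n => Red B y))
    (a := B.diag)
  omega

open Classical in
/-- the number of reductions is at most `2 ^ (k - 1)` -/
theorem card_red_le {B : Mat n} (hB : B.IsSymm) (hd : B.diag ≠ 0) {k : ℕ} (hk : rk B = k + 1) :
    (Finset.univ.filter (fun y : Vec n => Red B y)).card ≤ 2 ^ k := by
  obtain ⟨y0, hy0, h0⟩ := exists_red hB hd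
  rw [ne_zero_iff] at h0
  have hcard := card_sub (rng B)
  unfold rk at hk
  rw [hk, pow_succ] at hcard
  set A := Finset.univ.filter (fun y : Vec n => Red B y) with hA
  have hsub : A ∪ A.image (fun y => y + y0) ⊆ Finset.univ.filter (fun y : Vec n => y ∈ rng B) := by
    intro y hy
    rw [Finset.mem_union] at hy
    rw [Finset.mem_filter]
    refine ⟨Finset.mem_univ _, ?_⟩
    rcases hy with hy | hy
    · rw [hA, Finset.mem_filter] at hy
      exact hy.2.mem
    · obtain ⟨z, hz, rfl⟩ := Finset.mem_image.1 hy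
      rw [hA, Finset.mem_filter] at hz
      exact Submodule.add_mem _ hz.2.mem hy0
  have hdisj : Disjoint A (A.image (fun y => y + y0)) := by
    rw [Finset.disjoint_left]
    intro y hy hy'
    obtain ⟨z, hz, rfl⟩ := Finset.mem_image.1 hy'
    rw [hA, Finset.mem_filter] at hz hy
    have h1 := ((red_iff hB).1 hz.2).2
    have h2 := ((red_iff hB).1 hy.2).2
    rw [dotProduct_add, h1, h0] at h2
    revert h2
    decide
  have h1 := Finset.card_le_card hsub
  rw [Finset.card_union_of_disjoint hdisj, Finset.card_image_of_injective _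
    (add_left_injective y0)] at h1
  omega

/-- upper recursion -/
theorem NA_succ_le (k : ℕ) :
    (NA n (k + 1)).card * 2 ^ k ≤ ((NA n k).card + (AL n k).card) * 2 ^ n := by
  classical
  have hu : ((NA n k) ∪ (AL n k)).card ≤ (NA n k).card + (AL n k).card := Finset.card_union_le _ _
  refine le_trans ?_ (Nat.mul_le_mul_right _ hu)
  refine dc (NA n (k + 1)) ((NA n k) ∪ (AL n k)) (Finset.univ : Finset (Vec n))
    (fun B y => B + sq y) (fun B y => Red B y) (fun _ _ => True) ?_ _ _ ?_ ?_
  · intro B hB y _ hr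
    rw [mem_NA] at hB
    refine ⟨?_, trivial, add_sq_sq B y⟩
    have h1 := (Red.rk hB.1 hr).1
    rw [hB.2.1] at h1
    rw [Finset.mem_union, mem_NA, mem_AL]
    by_cases hd : (B + sq y).diag = 0
    · right
      exact ⟨hB.1.add (sq_symm y), by omega, hd⟩
    · left
      exact ⟨hB.1.add (sq_symm y), by omega, hd⟩
  · intro B hB
    rw [mem_NA] at hB
    exact card_red hB.1 hB.2.2 hB.2.1
  · intro B _
    refine (Finset.card_le_univ _).trans ?_
    simp

/-- lower recursion -/
theorem NA_succ_ge (k : ℕ) :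
    (NA n k).card * (2 ^ n - 2 ^ k) ≤ (NA n (k + 1)).card * 2 ^ k := by
  classical
  refine dc (NA n k) (NA n (k + 1)) (Finset.univ : Finset (Vec n))
    (fun B y => B + sq y) (fun B y => y ∉ rng B) (fun B y => Red B y) ?_ _ _ ?_ ?_
  · intro B hB y _ hr
    rw [mem_NA] at hB
    refine ⟨?_, red_add hB.1 hr, add_sq_sq B y⟩
    rw [mem_NA]
    refine ⟨hB.1.add (sq_symm y), ?_, diag_add_sq_ne ?_⟩
    · rw [rk_add hB.1 hr, hB.2.1]
    · rintro rfl
      exact hr (diag_mem hB.1)
  · intro B hB
    rw [mem_NA] at hB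
    have h1 := card_sub (rng B)
    have h2 := Finset.card_filter_add_card_filter_not (s := (Finset.univ : Finset (Vec n)))
      (fun y => y ∈ rng B)
    rw [h1, Finset.card_univ] at h2
    have h3 : Fintype.card (Vec n) = 2 ^ n := by simp
    rw [h3] at h2
    have h4 : Module.finrank (ZMod 2) (rng B) = k := hB.2.1
    rw [h4] at h2
    omega
  · intro B hB
    rw [mem_NA] at hB
    exact card_red_le hB.1 hB.2.2 hB.2.1

/-- alternating matrices are rare -/
theorem AL_le (k : ℕ) : (AL n k).card * (2 ^ k - 1) ≤ (NA n k).card := by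
  classical
  have h := dc (AL n k) (NA n k) (Finset.univ : Finset (Vec n))
    (fun B y => B + sq y) (fun B y => y ∈ rng B ∧ y ≠ 0) (fun B y => y = B.diag) ?_
    (2 ^ k - 1) 1 ?_ ?_
  · rwa [mul_one] at h
  · intro B hB y _ hr
    rw [mem_AL] at hB
    have hd : (B + sq y).diag = y := by rw [diag_add_sq, hB.2.2, zero_add]
    refine ⟨?_, hd.symm, add_sq_sq B y⟩
    obtain ⟨x, hx⟩ := mem_rng.1 hr.1
    have h0 : x ⬝ᵥ y = 0 := by
      rw [← hx, quad hB.1, hB.2.2, zero_dotProduct]
    rw [mem_NA]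
    refine ⟨hB.1.add (sq_symm y), ?_, by rw [hd]; exact hr.2⟩
    have := (neutral hB.1 hx h0).1
    rw [← hB.2.1]
    unfold rk
    rw [this]
  · intro B hB
    rw [mem_AL] at hB
    have h1 := card_sub (rng B)
    have h4 : Module.finrank (ZMod 2) (rng B) = k := hB.2.1
    rw [h4] at h1
    have e : (Finset.univ.filter (fun y : Vec n => y ∈ rng B ∧ y ≠ 0)) =
        (Finset.univ.filter (fun y : Vec n => y ∈ rng B)).erase 0 := by
      ext y
      simp only [Finset.mem_filter, Finset.mem_erase, Finset.mem_univ, true_and]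
      tauto
    rw [e]
    have := Finset.pred_card_le_card_erase
      (s := Finset.univ.filter (fun y : Vec n => y ∈ rng B)) (a := (0 : Vec n))
    omega
  · intro B _
    rw [Finset.card_le_one]
    intro a ha b hb
    rw [Finset.mem_filter] at ha hb
    rw [ha.2, hb.2]

theorem rk_zero_iff {B : Mat n} : rk B = 0 ↔ B = 0 := by
  constructor
  · intro h
    have h1 : rng B = ⊥ := Submodule.finrank_eq_zero.1 h
    have h2 : ∀ x, B *ᵥ x = 0 := by
      intro x
      have := mulVec_mem B x
      rw [h1, Submodule.mem_bot] at this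
      exact this
    ext i j
    have := congrFun (h2 (Pi.single j 1)) i
    simpa using this
  · rintro rfl
    unfold rk rng
    have : (0 : Mat n).mulVecLin = 0 := by
      ext; simp
    rw [this, LinearMap.range_zero, finrank_bot]

theorem NA_zero : NA n 0 = ∅ := by
  rw [Finset.eq_empty_iff_forall_notMem]
  intro B hB
  rw [mem_NA, rk_zero_iff] at hB
  obtain ⟨-, rfl, h⟩ := hB
  exact h rfl

theorem AL_zero : (AL n 0).card = 1 := by
  rw [Finset.card_eq_one]
  refine ⟨0, ?_⟩
  ext B
  rw [mem_AL, rk_zero_iff, Finset.mem_singleton]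
  constructor
  · rintro ⟨-, h, -⟩
    exact h
  · rintro rfl
    exact ⟨Matrix.isSymm_zero, rfl, rfl⟩

/-- the expected number of matrices of rank `k` -/
def w (n : ℕ) : ℕ → ℕ
  | 0 => 1
  | (k + 1) => w n k * 2 ^ (n - k)

theorem w_pos (n k : ℕ) : 0 < w n k := by
  induction k with
  | zero => exact one_pos
  | succ k ih => exact Nat.mul_pos ih (by positivity)

theorem NA_one : (NA n 1).card ≤ w n 1 := by
  have h := NA_succ_le (n := n) 0
  rw [NA_zero, AL_zero] at h
  simpa [w] using h

theorem NA_two (hn : 1 ≤ n) : (NA n 2).card ≤ 2 * w n 2 := by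
  have h := NA_succ_le (n := n) 1
  have h1 := AL_le (n := n) 1
  have h2 := NA_one (n := n)
  obtain ⟨m, rfl⟩ := Nat.exists_eq_add_of_le hn
  have e : w (1 + m) 2 = w (1 + m) 1 * 2 ^ m := by
    rw [w]
    congr 2
    omega
  have e2 : 2 ^ (1 + m) = 2 * 2 ^ m := by rw [pow_add, pow_one]
  rw [e]
  rw [e2] at h
  have h3 : (NA (1 + m) 2).card * 2 ≤ (w (1 + m) 1 + w (1 + m) 1) * (2 * 2 ^ m) := by
    refine (le_of_eq (by norm_num)).trans (h.trans (Nat.mul_le_mul_right _ ?_))
    norm_num at h1
    omega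
  have h4 : (w (1 + m) 1 + w (1 + m) 1) * (2 * 2 ^ m) = (2 * (w (1 + m) 1 * 2 ^ m)) * 2 := by ring
  rw [h4] at h3
  exact Nat.le_of_mul_le_mul_right h3 (by norm_num)

/-- upper bound for the number of matrices of rank `k` -/
theorem NA_le_aux (k : ℕ) (hk : k + 2 ≤ n) :
    ((NA n (k + 2)).card : ℝ) * (1 / 4 + (1 / 2) ^ (k + 2)) ≤ w n (k + 2) := by
  induction k with
  | zero =>
    have h := NA_two (n := n) (by omega)
    have h' : ((NA n 2).card : ℝ) ≤ 2 * w n 2 := by exact_mod_cast h
    norm_num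
    linarith
  | succ k ih =>
    have ih := ih (by omega)
    have h1 := NA_succ_le (n := n) (k + 2)
    have h2 := AL_le (n := n) (k + 2)
    have hw : (w n (k + 3) : ℝ) = w n (k + 2) * 2 ^ (n - (k + 2)) := by
      rw [show k + 3 = (k + 2) + 1 from rfl, w]
      push_cast
      ring
    have hpow : (2 : ℝ) ^ n = 2 ^ (n - (k + 2)) * 2 ^ (k + 2) := by
      rw [← pow_add]
      congr 1
      omega
    have h1' : ((NA n (k + 3)).card : ℝ) * 2 ^ (k + 2) ≤
        ((NA n (k + 2)).card + (AL n (k + 2)).card) * 2 ^ n := by exact_mod_cast h1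
    have hge : 1 ≤ 2 ^ (k + 2) := Nat.one_le_two_pow
    have h2' : ((AL n (k + 2)).card : ℝ) * (2 ^ (k + 2) - 1) ≤ (NA n (k + 2)).card := by
      have := (Nat.cast_le (α := ℝ)).2 h2
      rw [Nat.cast_mul, Nat.cast_sub hge] at this
      push_cast at this
      exact this
    rw [hpow] at h1'
    have h3 : ((NA n (k + 3)).card : ℝ) ≤
        ((NA n (k + 2)).card + (AL n (k + 2)).card) * 2 ^ (n - (k + 2)) := by
      have hp : (0 : ℝ) < 2 ^ (k + 2) := by positivity
      refine le_of_mul_le_mul_right ?_ hp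
      linarith [h1']
    set t : ℝ := 2 ^ (k + 2) with ht
    have ht4 : 4 ≤ t := by
      rw [ht]
      calc (4 : ℝ) = 2 ^ 2 := by norm_num
        _ ≤ 2 ^ (k + 2) := pow_le_pow_right₀ (by norm_num) (by omega)
    have hinv : (1 / 2 : ℝ) ^ (k + 2) = 1 / t := by rw [ht, _root_.one_div_pow]
    have hinv' : (1 / 2 : ℝ) ^ (k + 3) = 1 / (2 * t) := by
      rw [show k + 3 = (k + 2) + 1 from rfl, pow_succ, hinv]
      field_simp
    rw [show k + 1 + 2 = k + 3 from rfl, hinv', hw]
    rw [hinv] at ih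
    set N : ℝ := ((NA n (k + 2)).card : ℝ) with hN
    set A : ℝ := ((AL n (k + 2)).card : ℝ) with hA
    set P : ℝ := 2 ^ (n - (k + 2)) with hP
    have hP0 : 0 < P := by rw [hP]; positivity
    have hN0 : 0 ≤ N := by rw [hN]; positivity
    have h4 : (N + A) * (t - 1) ≤ N * t := by linarith
    have h5 : (N + A) * (1 / 4 + 1 / (2 * t)) ≤ N * (1 / 4 + 1 / t) := by
      have e1 : (1 / 4 + 1 / (2 * t)) = (t + 2) / (4 * t) := by field_simp; ring
      have e2 : (1 / 4 + 1 / t) = (t + 4) / (4 * t) := by field_simp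
      rw [e1, e2, mul_div_assoc', mul_div_assoc', div_le_div_iff_of_pos_right (by linarith)]
      have hA' : A * (t - 1) ≤ N := h2'
      have hA0 : 0 ≤ A := by rw [hA]; positivity
      nlinarith
    calc ((NA n (k + 3)).card : ℝ) * (1 / 4 + 1 / (2 * t))
        ≤ ((N + A) * P) * (1 / 4 + 1 / (2 * t)) :=
          mul_le_mul_of_nonneg_right h3 (by positivity)
      _ = ((N + A) * (1 / 4 + 1 / (2 * t))) * P := by ring
      _ ≤ (N * (1 / 4 + 1 / t)) * P := mul_le_mul_of_nonneg_right h5 hP0.le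
      _ ≤ w n (k + 2) * P := mul_le_mul_of_nonneg_right ih hP0.le

theorem NA_le (k : ℕ) (hk : k ≤ n) : (NA n k).card ≤ 4 * w n k := by
  rcases k with _ | _ | k
  · rw [NA_zero]
    simp
  · have := NA_one (n := n)
    simp only [zero_add]
    omega
  · have h := NA_le_aux (n := n) k (by omega)
    have h2 : (0 : ℝ) ≤ (1 / 2) ^ (k + 2) := by positivity
    have h3 : ((NA n (k + 2)).card : ℝ) ≤ 4 * w n (k + 2) := by
      have h4 : (0 : ℝ) ≤ (NA n (k + 2)).card := by positivity
      nlinarith [mul_nonneg h4 h2]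
    exact_mod_cast h3

end RMQ
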