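import Pool.Agent.RMQ.Count2

/-!
Symmetric matrices of full rank with non-zero diagonal have positive density.
-/

set_option autoImplicit false

open Matrix

namespace RMQ

variable {n : ℕ}

theorem NA_one_ge : 2 ^ n ≤ (NA n 1).card + 1 := by
  classical
  have h : ((Finset.univ : Finset (Vec n)).erase 0).card ≤ (NA n 1).card := by
    refine Finset.card_le_card_of_injOn (fun y => sq y) ?_ ?_
    · intro y hy
      rw [Finset.mem_coe, Finset.mem_erase] at hy
      rw [Finset.mem_coe, mem_NA]
      refine ⟨sq_symm y, ?_, by rw [sq_diag]; exact hy.1⟩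
      have h0 : y ∉ rng (0 : Mat n) := by
        intro h
        obtain ⟨x, hx⟩ := mem_rng.1 h
        rw [Matrix.zero_mulVec] at hx
        exact hy.1 hx.symm
      have := rk_add (B := (0 : Mat n)) Matrix.isSymm_zero h0
      rw [zero_add, rk_zero_iff.2 rfl] at this
      exact this
    · intro y _ y' _ h
      have := congrArg Matrix.diag h
      simpa only [sq_diag] using this
  have h2 := Finset.pred_card_le_card_erase (s := (Finset.univ : Finset (Vec n))) (a := 0)
  have h3 : (Finset.univ : Finset (Vec n)).card = 2 ^ n := by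
    rw [Finset.card_univ]; simp
  have h4 : 1 ≤ 2 ^ n := Nat.one_le_two_pow
  omega

theorem NA_ge_aux (k : ℕ) (hk : k + 1 ≤ n) :
    (w n (k + 1) : ℝ) * (1 - (1 / 2) ^ (n - (k + 1))) ≤ (NA n (k + 1)).card := by
  induction k with
  | zero =>
    have h := NA_one_ge (n := n)
    have h' : (2 : ℝ) ^ n ≤ (NA n 1).card + 1 := by exact_mod_cast h
    have e : (w n (0 + 1) : ℝ) = 2 ^ n := by
      rw [w, w]
      push_cast
      simp
    rw [e]
    have e2 : (2 : ℝ) ^ n * (1 / 2) ^ (n - (0 + 1)) = 2 := by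
      obtain ⟨m, rfl⟩ := Nat.exists_eq_add_of_le (show 1 ≤ n by omega)
      rw [show 1 + m - (0 + 1) = m by omega, pow_add, mul_assoc, ← mul_pow]
      norm_num
    rw [mul_sub, e2, zero_add]
    linarith
  | succ k ih =>
    have ih := ih (by omega)
    have h1 := NA_succ_ge (n := n) (k + 1)
    have hle : 2 ^ (k + 1) ≤ 2 ^ n := Nat.pow_le_pow_right (by norm_num) (by omega)
    have h2 : ((NA n (k + 1)).card : ℝ) * (2 ^ n - 2 ^ (k + 1)) ≤
        (NA n (k + 1 + 1)).card * 2 ^ (k + 1) := by
      have := (Nat.cast_le (α := ℝ)).2 h1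
      rw [Nat.cast_mul, Nat.cast_sub hle] at this
      push_cast at this
      exact this
    have hpow : (2 : ℝ) ^ n = 2 ^ (n - (k + 1)) * 2 ^ (k + 1) := by
      rw [← pow_add]
      congr 1
      omega
    set Q : ℝ := 2 ^ (n - (k + 1)) with hQ
    have hQ1 : 2 ≤ Q := by
      rw [hQ]
      calc (2 : ℝ) = 2 ^ 1 := by norm_num
        _ ≤ _ := pow_le_pow_right₀ (by norm_num) (by omega)
    have h3 : ((NA n (k + 1)).card : ℝ) * (Q - 1) ≤ (NA n (k + 1 + 1)).card := by
      have hp : (0 : ℝ) < 2 ^ (k + 1) := by positivity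
      refine le_of_mul_le_mul_right ?_ hp
      rw [hpow] at h2
      calc ((NA n (k + 1)).card : ℝ) * (Q - 1) * 2 ^ (k + 1)
          = ((NA n (k + 1)).card : ℝ) * (Q * 2 ^ (k + 1) - 2 ^ (k + 1)) := by ring
        _ ≤ _ := h2
    have e1 : (1 / 2 : ℝ) ^ (n - (k + 1)) = 1 / Q := by rw [hQ, _root_.one_div_pow]
    have e2 : (1 / 2 : ℝ) ^ (n - (k + 1 + 1)) = 2 / Q := by
      have : n - (k + 1) = (n - (k + 1 + 1)) + 1 := by omega
      rw [hQ, this, pow_succ, _root_.one_div_pow]
      field_simp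
    have e3 : (w n (k + 1 + 1) : ℝ) = w n (k + 1) * Q := by
      rw [w]
      push_cast
      rfl
    rw [e2, e3]
    rw [e1] at ih
    have hw : (0 : ℝ) < w n (k + 1) := by exact_mod_cast w_pos n (k + 1)
    refine le_trans ?_ h3
    refine le_trans ?_ (mul_le_mul_of_nonneg_right ih (by linarith))
    have : (w n (k + 1) : ℝ) * Q * (1 - 2 / Q) = w n (k + 1) * (Q - 2) := by
      field_simp
    rw [this, mul_assoc]
    refine mul_le_mul_of_nonneg_left ?_ hw.le
    have e4 : (1 - 1 / Q) * (Q - 1) = Q - 2 + 1 / Q := by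
      field_simp
      ring
    rw [e4]
    have : 0 < 1 / Q := by positivity
    linarith

/-- full rank matrices with non-zero diagonal -/
theorem NA_ge (hn : 2 ≤ n) : w n n ≤ 4 * (NA n n).card := by
  obtain ⟨m, rfl⟩ := Nat.exists_eq_add_of_le hn
  have h1 := NA_ge_aux (n := 2 + m) m (by omega)
  have h2 := NA_succ_ge (n := 2 + m) (m + 1)
  have e1 : 2 + m - (m + 1) = 1 := by omega
  rw [e1] at h1
  have e2 : 2 ^ (2 + m) - 2 ^ (m + 1) = 2 ^ (m + 1) := by
    rw [show 2 + m = (m + 1) + 1 by omega, pow_succ]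
    omega
  rw [e2] at h2
  have h3 : (NA (2 + m) (m + 1)).card ≤ (NA (2 + m) (m + 1 + 1)).card :=
    Nat.le_of_mul_le_mul_right h2 (by positivity)
  have e3 : w (2 + m) (2 + m) = w (2 + m) (m + 1) * 2 := by
    have : w (2 + m) (m + 1 + 1) = w (2 + m) (m + 1) * 2 ^ (2 + m - (m + 1)) := rfl
    rw [show 2 + m = m + 1 + 1 by omega] at this ⊢
    rw [this]
    congr 1
    rw [show m + 1 + 1 - (m + 1) = 1 by omega, pow_one]
  rw [e3]
  have h4 : (w (2 + m) (m + 1) : ℝ) ≤ 2 * (NA (2 + m) (m + 1)).card := by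
    norm_num at h1
    linarith
  have h5 : w (2 + m) (m + 1) ≤ 2 * (NA (2 + m) (m + 1)).card := by exact_mod_cast h4
  have e6 : (NA (2 + m) (2 + m)).card = (NA (2 + m) (m + 1 + 1)).card := by
    congr 2
    omega
  rw [e6]
  omega

theorem w_choose (k : ℕ) (hk : k ≤ n) :
    w n k * 2 ^ ((n - k + 1).choose 2) = 2 ^ ((n + 1).choose 2) := by
  induction k with
  | zero => simp [w]
  | succ k ih =>
    rw [w, mul_assoc, ← pow_add]
    have e : n - k + (n - (k + 1) + 1).choose 2 = (n - k + 1).choose 2 := by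
      obtain ⟨m, hm⟩ := Nat.exists_eq_add_of_le (show k + 1 ≤ n by omega)
      have e1 : n - k = m + 1 := by omega
      have e2 : n - (k + 1) = m := by omega
      rw [e1, e2]
      rw [Nat.choose_succ_succ' (m + 1) 1, Nat.choose_one_right]
    rw [e]
    exact ih (by omega)

theorem w_self : w n n = 2 ^ ((n + 1).choose 2) := by
  have := w_choose (n := n) n le_rfl
  simpa using this

open Classical in
/-- number of symmetric matrices -/
theorem card_symm_le :
    (Finset.univ.filter (fun B : Mat n => B.IsSymm)).card ≤ w n n := by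
  rw [w_self]
  have h : (Finset.univ : Finset (Sym2 (Fin n) → ZMod 2)).card = 2 ^ ((n + 1).choose 2) := by
    rw [Finset.card_univ, Fintype.card_fun, ZMod.card, Sym2.card, Fintype.card_fin]
  rw [← h]
  refine Finset.card_le_card_of_injOn (fun B => if hB : B.IsSymm then
    (fun z => Sym2.lift ⟨fun i j => B i j, fun i j => (hB.apply i j).symm⟩ z) else 0) ?_ ?_
  · intro B _
    exact Finset.mem_coe.2 (Finset.mem_univ _)
  · intro B hB B' hB' h
    rw [Finset.mem_coe, Finset.mem_filter] at hB hB'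
    dsimp only at h
    rw [dif_pos hB.2, dif_pos hB'.2] at h
    ext i j
    have := congrFun h s(i, j)
    simpa using this

end RMQ
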