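import Pool.Agent.RMQ.Rec2

/-!
A complete schedule gives a positive proportion of representable tuples.
-/

set_option autoImplicit false

open Matrix

namespace RMQ

theorem cc_pow_le {u s : ℕ} (hs : 4 * s ≤ 2 ^ u) : cc u ^ s ≤ 4 := by
  have h1 : cc u ≤ Real.exp (4 / 2 ^ u) := by
    unfold cc
    have := Real.add_one_le_exp ((4 : ℝ) / 2 ^ u)
    linarith
  have h0 : 0 ≤ cc u := by have := cc_ge u; linarith
  have hU : (0 : ℝ) < 2 ^ u := by positivity
  calc cc u ^ s ≤ Real.exp (4 / 2 ^ u) ^ s := pow_le_pow_left₀ h0 h1 s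
    _ = Real.exp (s * (4 / 2 ^ u)) := by rw [← Real.exp_nat_mul]
    _ ≤ Real.exp 1 := by
      refine Real.exp_le_exp.2 ?_
      rw [mul_div_assoc', div_le_one hU]
      have : (4 * s : ℝ) ≤ 2 ^ u := by exact_mod_cast hs
      linarith
    _ ≤ 4 := by
      have := Real.exp_one_lt_d9
      linarith

/-- export: density of representable tuples from a schedule -/
theorem good_of_reach {n u s g : ℕ} (hn : 2 ≤ n) (hu : 2 ≤ u)
    (h : Reach n u (fun _ : Fin g => n) s) (hs : 16 * 64 ^ g * s ≤ 2 ^ u) :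
    ((1 / 2) * (1 / 4) ^ g : ℝ) * (Nat.card {B : Fin g → Mat n // ∀ i, (B i).IsSymm} : ℝ) ≤
      (Nat.card {B : Fin g → Mat n // (∀ i, (B i).IsSymm) ∧ Rep s B} : ℝ) := by
  classical
  have hbad := reach_bad hu h
  have hsu : 4 * s ≤ 2 ^ u := by
    refine le_trans ?_ hs
    refine Nat.mul_le_mul_right _ ?_
    have : 1 ≤ 64 ^ g := Nat.one_le_pow _ _ (by norm_num)
    omega
  have hcc := cc_pow_le hsu
  have hused : (4 : ℝ) ^ used (fun _ : Fin g => n) ≤ 4 ^ g :=
    pow_le_pow_right₀ (by norm_num) (used_le _)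
  have hU : (0 : ℝ) < 2 ^ u := by positivity
  have hs' : (16 : ℝ) * 64 ^ g * s ≤ 2 ^ u := by exact_mod_cast hs
  have hWdef : W n (fun _ : Fin g => n) = w n n ^ g := by
    unfold W
    rw [Finset.prod_const, Finset.card_univ, Fintype.card_fin]
  set Wg : ℝ := (w n n : ℝ) ^ g with hWg
  have hWg0 : 0 ≤ Wg := by rw [hWg]; positivity
  have hb2 : ((bad n (fun _ : Fin g => n) s).card : ℝ) ≤ (1 / 2) * (1 / 4) ^ g * Wg := by
    rw [hWdef] at hbad
    push_cast at hbad
    rw [← hWg] at hbad
    refine hbad.trans ?_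
    refine mul_le_mul_of_nonneg_right ?_ hWg0
    have hc0 : (0 : ℝ) ≤ cc u ^ s := by
      have := cc_ge u
      positivity
    have hsd : (0 : ℝ) ≤ s * dd g u := mul_nonneg (by positivity) (dd_pos g u).le
    calc (4 : ℝ) ^ used (fun _ : Fin g => n) * cc u ^ s * (s * dd g u)
        ≤ 4 ^ g * 4 * (s * dd g u) := by
          refine mul_le_mul_of_nonneg_right ?_ hsd
          exact mul_le_mul hused hcc hc0 (by positivity)
      _ ≤ (1 / 2) * (1 / 4) ^ g := by
          unfold dd
          have e : (4 : ℝ) ^ g * 4 * (s * (2 * 4 ^ g / 2 ^ u)) =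
              (8 * 16 ^ g * s) / 2 ^ u := by
            have : (16 : ℝ) ^ g = 4 ^ g * 4 ^ g := by rw [← mul_pow]; norm_num
            rw [this]
            ring
          rw [e, div_le_iff₀ hU]
          have e2 : (1 / 4 : ℝ) ^ g * 64 ^ g = 16 ^ g := by rw [← mul_pow]; norm_num
          calc (8 : ℝ) * 16 ^ g * s = (1 / 2) * (1 / 4) ^ g * (16 * 64 ^ g * s) := by
                rw [← e2]; ring
            _ ≤ (1 / 2) * (1 / 4) ^ g * 2 ^ u := mul_le_mul_of_nonneg_left hs' (by positivity)
  have hX : Wg * (1 / 4) ^ g ≤ ((X n (fun _ : Fin g => n)).card : ℝ) := by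
    have h1 : (X n (fun _ : Fin g => n)).card = (NA n n).card ^ g := by
      unfold X
      rw [Fintype.card_piFinset, Finset.prod_const, Finset.card_univ, Fintype.card_fin,
        XX_pos (by omega)]
    rw [h1, hWg, ← mul_pow]
    push_cast
    refine pow_le_pow_left₀ (by positivity) ?_ g
    have h2 : (w n n : ℝ) ≤ 4 * (NA n n).card := by exact_mod_cast NA_ge hn
    linarith
  have hsymm : (Nat.card {B : Fin g → Mat n // ∀ i, (B i).IsSymm} : ℝ) ≤ Wg := by
    have h1 : Nat.card {B : Fin g → Mat n // ∀ i, (B i).IsSymm} =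
        (Fintype.piFinset (fun _ : Fin g =>
          Finset.univ.filter (fun B : Mat n => B.IsSymm))).card := by
      rw [Nat.card_eq_fintype_card, Fintype.card_subtype]
      congr 1
      ext B
      rw [Finset.mem_filter, Fintype.mem_piFinset]
      simp
    rw [h1, Fintype.card_piFinset, Finset.prod_const, Finset.card_univ, Fintype.card_fin, hWg]
    push_cast
    refine pow_le_pow_left₀ (by positivity) ?_ g
    exact_mod_cast card_symm_le (n := n)
  have hgood : ((X n (fun _ : Fin g => n)).card : ℝ) ≤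
      (bad n (fun _ : Fin g => n) s).card +
      (Nat.card {B : Fin g → Mat n // (∀ i, (B i).IsSymm) ∧ Rep s B} : ℝ) := by
    have h1 : (X n (fun _ : Fin g => n)).card ≤ (bad n (fun _ : Fin g => n) s).card +
        Nat.card {B : Fin g → Mat n // (∀ i, (B i).IsSymm) ∧ Rep s B} := by
      rw [Nat.card_eq_fintype_card, Fintype.card_subtype]
      refine (Finset.card_le_card ?_).trans (Finset.card_union_le _ _)
      intro B hB
      rw [Finset.mem_union, mem_bad, Finset.mem_filter]
      have hB' := mem_X.1 hB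
      by_cases hr : Rep s B
      · right
        refine ⟨Finset.mem_univ _, fun i => ?_, hr⟩
        have := hB' i
        rw [XX_pos (by omega), mem_NA] at this
        exact this.1
      · left
        exact ⟨hB', hr⟩
    exact_mod_cast h1
  have h2 : ((1 / 2) * (1 / 4) ^ g : ℝ) *
      (Nat.card {B : Fin g → Mat n // ∀ i, (B i).IsSymm} : ℝ) ≤ (1 / 2) * (1 / 4) ^ g * Wg :=
    mul_le_mul_of_nonneg_left hsymm (by positivity)
  linarith

end RMQ
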