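import Pool.Agent.RMQ.Count3

/-!
Pairs of matrices: common reductions, and the rarity of isotropic intersections.
-/

set_option autoImplicit false

open Matrix

namespace RMQ

variable {n : ℕ}

theorem finrank_inf_ge (U V : Submodule (ZMod 2) (Vec n)) :
    Module.finrank (ZMod 2) U + Module.finrank (ZMod 2) V ≤
      n + Module.finrank (ZMod 2) (U ⊓ V : Submodule (ZMod 2) (Vec n)) := by
  have h := Submodule.finrank_sup_add_finrank_inf_eq U V
  have h2 := Submodule.finrank_le (U ⊔ V)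
  rw [Module.finrank_fin_fun] at h2
  omega

/-- the functional of `B` vanishes on the intersection of its range with `V` -/
def Iso (B : Mat n) (V : Submodule (ZMod 2) (Vec n)) : Prop :=
  ∀ y ∈ rng B ⊓ V, wv B ⬝ᵥ y = 0

open Classical in
theorem iso_le (V : Submodule (ZMod 2) (Vec n)) (k v : ℕ)
    (hv : n + v + 2 ≤ k + Module.finrank (ZMod 2) V) :
    ((NA n k).filter (fun B => Iso B V)).card * 2 ^ v ≤ (NA n k).card := by
  by_cases hk : n < k
  · have : NA n k = ∅ := by
      rw [Finset.eq_empty_iff_forall_notMem]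
      intro B hB
      rw [mem_NA] at hB
      have := rk_le B
      omega
    rw [this]
    simp
  have hVn : Module.finrank (ZMod 2) V ≤ n := by
    have h2 := Submodule.finrank_le V
    rwa [Module.finrank_fin_fun] at h2
  have hdim : ∀ B ∈ NA n k, v + 2 ≤
      Module.finrank (ZMod 2) (rng B ⊓ V : Submodule (ZMod 2) (Vec n)) := by
    intro B hB
    rw [mem_NA] at hB
    have h := finrank_inf_ge (rng B) V
    have h2 : Module.finrank (ZMod 2) (rng B) = k := hB.2.1
    omega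
  have key := dc ((NA n k).filter (fun B => Iso B V)) (NA n k) (Finset.univ : Finset (Vec n))
    (fun B x => B + sq (B *ᵥ x))
    (fun B x => B.diag ⬝ᵥ x = 0 ∧ ¬ ∀ y ∈ rng B ⊓ V, x ⬝ᵥ y = 0)
    (fun B x => ∀ y ∈ rng B ⊓ V, x ⬝ᵥ y = wv B ⬝ᵥ y) ?_ (2 ^ (n - 2)) (2 ^ (n - (v + 2))) ?_ ?_
  · have e : n - 2 = v + (n - (v + 2)) := by omega
    rw [e, pow_add, ← mul_assoc] at key
    exact Nat.le_of_mul_le_mul_right key (by positivity)
  · intro B hB x _ hx
    rw [Finset.mem_filter] at hB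
    have hB1 := mem_NA.1 hB.1
    have h0 : x ⬝ᵥ (B *ᵥ x) = 0 := by rw [quad hB1.1, hx.1]
    have hn := neutral hB1.1 (rfl : B *ᵥ x = B *ᵥ x) h0
    have hth : ∀ y ∈ rng B ⊓ V, wv (B + sq (B *ᵥ x)) ⬝ᵥ y = x ⬝ᵥ y := by
      intro y hy
      rw [hn.2 y hy.1, hB.2 y hy, zero_add]
    have hB'symm : (B + sq (B *ᵥ x)).IsSymm := hB1.1.add (sq_symm _)
    refine ⟨?_, ?_, ?_⟩
    · rw [mem_NA]
      refine ⟨hB'symm, ?_, ?_⟩
      · unfold rk
        rw [hn.1]
        exact hB1.2.1
      · intro hd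
        apply hx.2
        intro y hy
        rw [← hth y hy]
        have hy' : y ∈ rng (B + sq (B *ᵥ x)) := by rw [hn.1]; exact hy.1
        obtain ⟨t, ht⟩ := mem_rng.1 hy'
        rw [wv_dot hB'symm ht, ← ht, quad hB'symm, hd, zero_dotProduct]
    · intro y hy
      rw [hn.1] at hy
      exact (hth y hy).symm
    · have e : (B + sq (B *ᵥ x)) *ᵥ x = B *ᵥ x := by
        rw [Matrix.add_mulVec, sq_mulVec, dotProduct_comm, h0, zero_smul, add_zero]
      rw [e, add_sq_sq]
  · intro B hB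
    rw [Finset.mem_filter] at hB
    have h1 : 2 ^ n ≤ (Finset.univ.filter (fun x : Vec n => B.diag ⬝ᵥ x = 0)).card * 2 := by
      have := fib (⊤ : Submodule (ZMod 2) (Vec n)) (dot B.diag) 0 trivial
      rw [finrank_top, Module.finrank_fin_fun, ZMod.card, map_zero] at this
      refine this.trans (le_of_eq ?_)
      congr 2
      ext y
      simp only [Finset.mem_filter, Submodule.mem_top, true_and]
      rfl
    have h2 := perp_le (rng B ⊓ V) (v + 2) (hdim B hB.1) (fun _ => 0)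
    have h3 : (Finset.univ.filter (fun x : Vec n => B.diag ⬝ᵥ x = 0)).card ≤
        (Finset.univ.filter (fun x : Vec n => B.diag ⬝ᵥ x = 0 ∧
          ¬ ∀ y ∈ rng B ⊓ V, x ⬝ᵥ y = 0)).card +
        (Finset.univ.filter (fun x : Vec n => ∀ y ∈ rng B ⊓ V, x ⬝ᵥ y = 0)).card := by
      refine (Finset.card_le_card ?_).trans (Finset.card_union_le _ _)
      intro x hx
      rw [Finset.mem_filter] at hx
      rw [Finset.mem_union, Finset.mem_filter, Finset.mem_filter]
      by_cases hc : ∀ y ∈ rng B ⊓ V, x ⬝ᵥ y = 0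
      · right; exact ⟨Finset.mem_univ _, hc⟩
      · left; exact ⟨Finset.mem_univ _, hx.2, hc⟩
    have e1 : 2 ^ n = 2 ^ (n - 2) * 4 := by
      have : n = (n - 2) + 2 := by omega
      conv_lhs => rw [this]
      rw [pow_add]
      norm_num
    have e2 : 2 ^ (n - (v + 2)) ≤ 2 ^ (n - 2) := Nat.pow_le_pow_right (by norm_num) (by omega)
    omega
  · intro B hB
    exact perp_le (rng B ⊓ V) (v + 2) (hdim B hB) (fun y => wv B ⬝ᵥ y)

open Classical in
theorem pair_red {B C : Mat n} (hB : B.IsSymm) (hC : C.IsSymm) (v : ℕ)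
    (hv : n + v + 2 ≤ rk B + rk C) (h1 : ¬ Iso B (rng C)) (h2 : ¬ Iso C (rng B)) :
    2 ^ v - 2 ≤ (Finset.univ.filter (fun y : Vec n => (Red B y ∧ Red C y) ∧
      y ≠ B.diag ∧ y ≠ C.diag)).card := by
  have hU := finrank_inf_ge (rng B) (rng C)
  have h1' : ∃ y ∈ rng B ⊓ rng C, wv B ⬝ᵥ y ≠ 0 := by
    unfold Iso at h1
    push Not at h1
    exact h1
  have h2' : ∃ y ∈ rng B ⊓ rng C, wv C ⬝ᵥ y ≠ 0 := by
    unfold Iso at h2
    push Not at h2
    obtain ⟨y, hy, h⟩ := h2
    exact ⟨y, ⟨hy.2, hy.1⟩, h⟩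
  have h3 := fib2 (rng B ⊓ rng C) (wv B) (wv C) h1' h2'
  have h4 : 2 ^ (v + 2) ≤ 2 ^ Module.finrank (ZMod 2)
      (rng B ⊓ rng C : Submodule (ZMod 2) (Vec n)) := by
    refine Nat.pow_le_pow_right (by norm_num) ?_
    unfold rk at hv
    omega
  have e : (Finset.univ.filter (fun y : Vec n => y ∈ rng B ⊓ rng C ∧ wv B ⬝ᵥ y = 1 ∧
      wv C ⬝ᵥ y = 1)) = Finset.univ.filter (fun y : Vec n => Red B y ∧ Red C y) := by
    ext y
    simp only [Finset.mem_filter, Submodule.mem_inf]
    rw [red_iff hB, red_iff hC]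
    tauto
  rw [e] at h3
  have h5 : (Finset.univ.filter (fun y : Vec n => (Red B y ∧ Red C y) ∧
      y ≠ B.diag ∧ y ≠ C.diag)) =
      ((Finset.univ.filter (fun y : Vec n => Red B y ∧ Red C y)).erase B.diag).erase C.diag := by
    ext y
    simp only [Finset.mem_filter, Finset.mem_erase, Finset.mem_univ, true_and]
    tauto
  rw [h5]
  have h6 := Finset.pred_card_le_card_erase
    (s := Finset.univ.filter (fun y : Vec n => Red B y ∧ Red C y)) (a := B.diag)
  have h7 := Finset.pred_card_le_card_erase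
    (s := (Finset.univ.filter (fun y : Vec n => Red B y ∧ Red C y)).erase B.diag) (a := C.diag)
  rw [pow_add] at h4
  omega

end RMQ
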