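import Pool.Agent.RMQ.RepL

/-!
Double counting of the tuples which cannot be represented along a schedule.
-/

set_option autoImplicit false

open Matrix

namespace RMQ

/-- matrices allowed for a slice at level `k` -/
noncomputable def XX (n k : ℕ) : Finset (Mat n) := if k = 0 then {0} else NA n k

theorem XX_zero (n : ℕ) : XX n 0 = {0} := if_pos rfl

theorem XX_pos {n k : ℕ} (hk : 1 ≤ k) : XX n k = NA n k := if_neg (by omega)

/-- tuples with rank vector `κ` -/
noncomputable def X (n : ℕ) {g : ℕ} (κ : Fin g → ℕ) : Finset (Fin g → Mat n) :=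
  Fintype.piFinset (fun i => XX n (κ i))

theorem mem_X {n g : ℕ} {κ : Fin g → ℕ} {B : Fin g → Mat n} :
    B ∈ X n κ ↔ ∀ i, B i ∈ XX n (κ i) := Fintype.mem_piFinset

open Classical in
/-- tuples which are not sums of `s` weighted squares -/
noncomputable def bad (n : ℕ) {g : ℕ} (κ : Fin g → ℕ) (s : ℕ) : Finset (Fin g → Mat n) :=
  (X n κ).filter (fun B => ¬ Rep s B)

theorem mem_bad {n g s : ℕ} {κ : Fin g → ℕ} {B : Fin g → Mat n} :
    B ∈ bad n κ s ↔ (∀ i, B i ∈ XX n (κ i)) ∧ ¬ Rep s B := by
  classical
  unfold bad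
  rw [Finset.mem_filter, mem_X]

/-- weight of a rank vector -/
def W (n : ℕ) {g : ℕ} (κ : Fin g → ℕ) : ℕ := ∏ i, w n (κ i)

theorem W_pos (n : ℕ) {g : ℕ} (κ : Fin g → ℕ) : 0 < W n κ :=
  Finset.prod_pos fun i _ => w_pos n (κ i)

theorem W_update (n : ℕ) {g : ℕ} (κ : Fin g → ℕ) (i : Fin g) (k : ℕ) :
    W n (Function.update κ i k) * w n (κ i) = W n κ * w n k := by
  classical
  unfold W
  rw [Fintype.prod_eq_mul_prod_compl i, Fintype.prod_eq_mul_prod_compl i (fun j => w n (κ j))]
  rw [Function.update_self]
  have : ∏ j ∈ {i}ᶜ, w n (Function.update κ i k j) = ∏ j ∈ {i}ᶜ, w n (κ j) := by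
    refine Finset.prod_congr rfl fun j hj => ?_
    rw [Finset.mem_compl, Finset.mem_singleton] at hj
    rw [Function.update_of_ne hj]
  rw [this]
  ring

theorem NA_empty {n k : ℕ} (hk : n < k) : NA n k = ∅ := by
  rw [Finset.eq_empty_iff_forall_notMem]
  intro B hB
  rw [mem_NA] at hB
  have := rk_le B
  omega

theorem NA_le' (n k : ℕ) : (NA n k).card ≤ 4 * w n k := by
  by_cases hk : k ≤ n
  · exact NA_le k hk
  · rw [NA_empty (by omega)]
    simp

theorem XX_le (n k : ℕ) : (XX n k).card ≤ 4 * w n k := by
  rcases Nat.eq_zero_or_pos k with rfl | hk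
  · rw [XX_zero, Finset.card_singleton]
    have := w_pos n 0
    omega
  · rw [XX_pos hk]
    exact NA_le' n k

theorem X_le (n : ℕ) {g : ℕ} (κ : Fin g → ℕ) : (X n κ).card ≤ 4 ^ g * W n κ := by
  unfold X W
  rw [Fintype.card_piFinset]
  calc ∏ i, (XX n (κ i)).card ≤ ∏ i, (4 * w n (κ i)) := Finset.prod_le_prod' fun i _ => XX_le n _
    _ = 4 ^ g * ∏ i, w n (κ i) := by
      rw [Finset.prod_mul_distrib, Finset.prod_const, Finset.card_univ, Fintype.card_fin]

/-- adding a weighted square to a tuple -/
def push {n g : ℕ} (p : Fin g → ZMod 2) (B : Fin g → Mat n) (y : Vec n) : Fin g → Mat n :=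
  fun i => B i + p i • sq y

theorem push_push {n g : ℕ} (p : Fin g → ZMod 2) (B : Fin g → Mat n) (y : Vec n) :
    push p (push p B y) y = B := by
  funext i
  exact smul_sq_twice _ _ _

theorem push_rep {n g s : ℕ} {p : Fin g → ZMod 2} {B : Fin g → Mat n} {y : Vec n}
    (h : ¬ Rep (s + 1) B) : ¬ Rep s (push p B y) := fun h' => h (rec_rep_cons p y h')

/-- one reduction -/
theorem red_XX {n k : ℕ} (hk : 1 ≤ k) {B : Mat n} (hB : B ∈ XX n (k + 1)) {y : Vec n}
    (hr : Red B y) (hy : y ≠ B.diag) : B + sq y ∈ XX n k := by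
  rw [XX_pos (by omega), mem_NA] at hB
  rw [XX_pos hk, mem_NA]
  have h1 := (Red.rk hB.1 hr).1
  exact ⟨hB.1.add (sq_symm y), by omega, diag_add_sq_ne hy⟩

/-- single step -/
theorem bad_single {n g : ℕ} (κ : Fin g → ℕ) (i : Fin g) (s : ℕ) (h1 : 1 ≤ κ i) :
    (bad n (Function.update κ i (κ i + 1)) (s + 1)).card * (2 ^ (κ i) - 1) ≤
      (bad n κ s).card * 2 ^ n := by
  classical
  refine dc (bad n (Function.update κ i (κ i + 1)) (s + 1)) (bad n κ s)
    (Finset.univ : Finset (Vec n)) (fun B y => push (Pi.single i 1) B y)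
    (fun B y => Red (B i) y ∧ y ≠ (B i).diag) (fun _ _ => True) ?_ _ _ ?_ ?_
  · intro B hB y _ hr
    rw [mem_bad] at hB
    refine ⟨?_, trivial, push_push _ _ _⟩
    rw [mem_bad]
    refine ⟨fun j => ?_, push_rep hB.2⟩
    have hj := hB.1 j
    unfold push
    by_cases hji : j = i
    · subst hji
      rw [Function.update_self] at hj
      rw [Pi.single_eq_same, one_smul]
      exact red_XX h1 hj hr.1 hr.2
    · rw [Function.update_of_ne hji] at hj
      rw [Pi.single_eq_of_ne hji, zero_smul, add_zero]
      exact hj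
  · intro B hB
    have hj := (mem_bad.1 hB).1 i
    rw [Function.update_self, XX_pos (by omega), mem_NA] at hj
    exact card_red_ge hj.1 hj.2.2 hj.2.1
  · intro B _
    refine (Finset.card_le_univ _).trans ?_
    simp

/-- both slices are reduced at once -/
theorem bad_pair_aux {n g : ℕ} (κ : Fin g → ℕ) (i j : Fin g) (s v : ℕ) (hij : i ≠ j)
    (hv : κ i + κ j = n + v) (hi : κ i < n) (hj : κ j < n) (S : Finset (Fin g → Mat n))
    (hS : S ⊆ bad n (Function.update (Function.update κ i (κ i + 1)) j (κ j + 1)) (s + 1))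
    (hS1 : ∀ B ∈ S, ¬ Iso (B i) (rng (B j))) (hS2 : ∀ B ∈ S, ¬ Iso (B j) (rng (B i))) :
    S.card * (2 ^ v - 2) ≤ (bad n κ s).card * 2 ^ n := by
  classical
  refine dc S (bad n κ s)
    (Finset.univ : Finset (Vec n))
    (fun B y => push (fun l => if l = i ∨ l = j then 1 else 0) B y)
    (fun B y => (Red (B i) y ∧ Red (B j) y) ∧ y ≠ (B i).diag ∧ y ≠ (B j).diag)
    (fun _ _ => True) ?_ _ _ ?_ ?_
  · intro B hB y _ hr
    have hB := mem_bad.1 (hS hB)
    refine ⟨?_, trivial, push_push _ _ _⟩
    rw [mem_bad]
    refine ⟨fun l => ?_, push_rep hB.2⟩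
    have hl := hB.1 l
    unfold push
    beta_reduce
    by_cases hlj : l = j
    · subst hlj
      rw [Function.update_self] at hl
      rw [if_pos (Or.inr rfl), one_smul]
      exact red_XX (by omega) hl hr.1.2 hr.2.2
    · rw [Function.update_of_ne hlj] at hl
      by_cases hli : l = i
      · subst hli
        rw [Function.update_self] at hl
        rw [if_pos (Or.inl rfl), one_smul]
        exact red_XX (by omega) hl hr.1.1 hr.2.1
      · rw [Function.update_of_ne hli] at hl
        rw [if_neg (by tauto), zero_smul, add_zero]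
        exact hl
  · intro B hB
    have hB' := mem_bad.1 (hS hB)
    have hBj := hB'.1 j
    have hBi := hB'.1 i
    rw [Function.update_self, XX_pos (by omega), mem_NA] at hBj
    rw [Function.update_of_ne hij, Function.update_self, XX_pos (by omega), mem_NA] at hBi
    exact pair_red hBi.1 hBj.1 v (by omega) (hS1 B hB) (hS2 B hB)
  · intro B _
    refine (Finset.card_le_univ _).trans ?_
    simp

open Classical in
/-- isotropic intersections are rare -/
theorem iso_tuples {n g : ℕ} (κ : Fin g → ℕ) (i j : Fin g) (v : ℕ) (hij : i ≠ j)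
    (hi : 1 ≤ κ i) (hj : 1 ≤ κ j) (hv : n + v + 2 ≤ κ i + κ j) :
    ((X n κ).filter (fun B => Iso (B i) (rng (B j)))).card * 2 ^ v ≤ (X n κ).card := by
  set S := (X n κ).filter (fun B => Iso (B i) (rng (B j))) with hS
  set π : (Fin g → Mat n) → (Fin g → Mat n) := fun B => Function.update B i 0 with hπ
  have h1 := Finset.card_eq_sum_card_fiberwise (s := S) (t := (X n κ).image π) (f := π) (by
    intro B hB
    exact Finset.mem_coe.2 (Finset.mem_image_of_mem _ (Finset.mem_filter.1 hB).1))
  have h2 := Finset.card_eq_sum_card_fiberwise (s := X n κ) (t := (X n κ).image π) (f := π) (by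
    intro B hB
    exact Finset.mem_coe.2 (Finset.mem_image_of_mem _ hB))
  rw [h1, h2, Finset.sum_mul]
  refine Finset.sum_le_sum fun C hC => ?_
  obtain ⟨B0, hB0, rfl⟩ := Finset.mem_image.1 hC
  have hB0' := mem_X.1 hB0
  have hBj := hB0' j
  rw [XX_pos hj, mem_NA] at hBj
  have hrk : Module.finrank (ZMod 2) (rng (B0 j)) = κ j := hBj.2.1
  have key := iso_le (rng (B0 j)) (κ i) v (by rw [hrk]; exact hv)
  have e1 : (S.filter (fun B => π B = π B0)).card ≤
      ((NA n (κ i)).filter (fun M => Iso M (rng (B0 j)))).card := by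
    refine Finset.card_le_card_of_injOn (fun B => B i) ?_ ?_
    · intro B hB
      rw [Finset.mem_coe, Finset.mem_filter, hS, Finset.mem_filter] at hB
      rw [Finset.mem_coe, Finset.mem_filter]
      have hBi := mem_X.1 hB.1.1 i
      rw [XX_pos hi] at hBi
      have hj' : B j = B0 j := by
        have := congrFun hB.2 j
        rw [hπ] at this
        simpa only [Function.update_of_ne hij.symm] using this
      refine ⟨hBi, ?_⟩
      have := hB.1.2
      rwa [hj'] at this
    · intro B hB B' hB' he
      rw [Finset.mem_coe, Finset.mem_filter] at hB hB'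
      have h3 : π B = π B' := hB.2.trans hB'.2.symm
      funext l
      by_cases hl : l = i
      · rw [hl]
        exact he
      · have := congrFun h3 l
        rw [hπ] at this
        simpa only [Function.update_of_ne hl] using this
  have e2 : (NA n (κ i)).card ≤ ((X n κ).filter (fun B => π B = π B0)).card := by
    refine Finset.card_le_card_of_injOn (fun M => Function.update B0 i M) ?_ ?_
    · intro M hM
      rw [Finset.mem_coe, Finset.mem_filter, mem_X]
      refine ⟨fun l => ?_, ?_⟩
      · beta_reduce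
        by_cases hl : l = i
        · subst hl
          rw [Function.update_self, XX_pos hi]
          exact hM
        · rw [Function.update_of_ne hl]
          exact hB0' l
      · rw [hπ]
        exact Function.update_idem _ _ _
    · intro M _ M' _ he
      have := congrFun he i
      simpa only [Function.update_self] using this
  calc (S.filter (fun B => π B = π B0)).card * 2 ^ v
      ≤ ((NA n (κ i)).filter (fun M => Iso M (rng (B0 j)))).card * 2 ^ v :=
        Nat.mul_le_mul_right _ e1
    _ ≤ (NA n (κ i)).card := key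
    _ ≤ _ := e2

/-- a slice is introduced at level `k` -/
theorem bad_jump {n g : ℕ} (κ : Fin g → ℕ) (i : Fin g) (k s : ℕ) (h0 : κ i = 0) (hk : 0 < k) :
    (bad n (Function.update κ i k) (s + k)).card ≤ (bad n κ s).card * (4 * w n k) := by
  classical
  refine le_trans ?_ (Nat.mul_le_mul_left _ (NA_le' n k))
  rw [← Finset.card_product]
  refine Finset.card_le_card_of_injOn (fun B => (Function.update B i 0, B i)) ?_ ?_
  · intro B hB
    have hB' := mem_bad.1 (Finset.mem_coe.1 hB)
    have hBi := hB'.1 i
    rw [Function.update_self, XX_pos hk] at hBi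
    rw [Finset.mem_coe, Finset.mem_product]
    refine ⟨?_, hBi⟩
    rw [mem_bad]
    refine ⟨fun l => ?_, fun hrep => hB'.2 ?_⟩
    · by_cases hl : l = i
      · subst hl
        rw [h0, XX_zero]
        simp
      · have := hB'.1 l
        rw [Function.update_of_ne hl] at this
        dsimp only
        rw [Function.update_of_ne hl]
        exact this
    · have h2 := rec_rep_add hrep (rep_slice (na_sumSq' hBi) i)
      have e : (fun l => Function.update B i 0 l + if l = i then B i else 0) = B := by
        funext l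
        by_cases hl : l = i
        · subst hl
          simp
        · simp [hl]
      rwa [e] at h2
  · intro B _ B' _ he
    rw [Prod.mk.injEq] at he
    funext l
    by_cases hl : l = i
    · rw [hl]
      exact he.2
    · have := congrFun he.1 l
      simpa only [Function.update_of_ne hl] using this

end RMQ
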