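import Pool.Agent.RMQ.Rec

/-!
Along a schedule almost all tuples are represented.
-/

set_option autoImplicit false

open Matrix

namespace RMQ

/-- number of slices which are in use -/
def used {g : ℕ} (κ : Fin g → ℕ) : ℕ := (Finset.univ.filter (fun i => κ i ≠ 0)).card

theorem used_le {g : ℕ} (κ : Fin g → ℕ) : used κ ≤ g := by
  have h := Finset.card_filter_le (Finset.univ : Finset (Fin g)) (fun i => κ i ≠ 0)
  rw [Finset.card_univ, Fintype.card_fin] at h
  exact h

theorem used_mono {g : ℕ} {κ κ' : Fin g → ℕ} (h : ∀ i, κ i ≠ 0 → κ' i ≠ 0) :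
    used κ ≤ used κ' := by
  refine Finset.card_le_card fun i hi => ?_
  rw [Finset.mem_filter] at hi ⊢
  exact ⟨hi.1, h i hi.2⟩

theorem used_jump {g : ℕ} (κ : Fin g → ℕ) (i : Fin g) (k : ℕ) (h0 : κ i = 0) (hk : 0 < k) :
    used κ + 1 ≤ used (Function.update κ i k) := by
  unfold used
  have h1 : i ∉ Finset.univ.filter (fun j => κ j ≠ 0) := by
    rw [Finset.mem_filter]
    exact fun h => h.2 h0
  rw [← Finset.card_insert_of_notMem h1]
  refine Finset.card_le_card fun j hj => ?_
  rw [Finset.mem_insert, Finset.mem_filter] at hj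
  rw [Finset.mem_filter]
  refine ⟨Finset.mem_univ _, ?_⟩
  by_cases hji : j = i
  · subst hji
    rw [Function.update_self]
    omega
  · rw [Function.update_of_ne hji]
    exact (hj.resolve_left hji).2

/-- growth factor of one step -/
noncomputable def cc (u : ℕ) : ℝ := 1 + 4 / 2 ^ u

/-- additive error of one step -/
noncomputable def dd (g u : ℕ) : ℝ := 2 * 4 ^ g / 2 ^ u

theorem cc_ge (u : ℕ) : 1 ≤ cc u := by
  unfold cc
  have : (0 : ℝ) < 4 / 2 ^ u := by positivity
  linarith

theorem dd_pos (g u : ℕ) : 0 < dd g u := by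
  unfold dd
  positivity

theorem step_aux {u v : ℕ} (hu : 2 ≤ u) (huv : u ≤ v) (a : ℝ) (ha2 : a ≤ 2) :
    (2 : ℝ) ^ v ≤ cc u * (2 ^ v - a) := by
  have hU : (4 : ℝ) ≤ 2 ^ u := by
    calc (4 : ℝ) = 2 ^ 2 := by norm_num
      _ ≤ 2 ^ u := pow_le_pow_right₀ (by norm_num) hu
  have hV : (2 : ℝ) ^ u ≤ 2 ^ v := pow_le_pow_right₀ (by norm_num) huv
  unfold cc
  have h1 : (0 : ℝ) < 2 ^ u := by positivity
  have h2 : 2 * (2 : ℝ) ^ u ≤ 4 * (2 ^ v - a) := by linarith
  have h3 : 2 ≤ 4 / 2 ^ u * ((2 : ℝ) ^ v - a) := by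
    rw [div_mul_eq_mul_div, le_div_iff₀ h1]
    linarith
  linarith

theorem W_succ {n g : ℕ} (κ : Fin g → ℕ) (i : Fin g) :
    W n (Function.update κ i (κ i + 1)) = W n κ * 2 ^ (n - κ i) := by
  have h := W_update n κ i (κ i + 1)
  rw [w] at h
  have hw := w_pos n (κ i)
  have h2 : W n (Function.update κ i (κ i + 1)) * w n (κ i) =
      (W n κ * 2 ^ (n - κ i)) * w n (κ i) := by
    rw [h]; ring
  exact Nat.eq_of_mul_eq_mul_right hw h2

/-- error bound along a schedule -/
theorem reach_bad {n u g : ℕ} (hu : 2 ≤ u) {κ : Fin g → ℕ} {s : ℕ} (h : Reach n u κ s) :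
    ((bad n κ s).card : ℝ) ≤ 4 ^ used κ * cc u ^ s * (s * dd g u) * W n κ := by
  classical
  have hc := cc_ge u
  have hd := dd_pos g u
  induction h with
  | zero =>
    have : bad n (fun _ : Fin g => 0) 0 = ∅ := by
      rw [Finset.eq_empty_iff_forall_notMem]
      intro B hB
      rw [mem_bad] at hB
      apply hB.2
      have : B = fun _ => 0 := by
        funext i
        have := hB.1 i
        rw [XX_zero, Finset.mem_singleton] at this
        exact this
      rw [this]
      exact rec_rep_zero
    rw [this]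
    simp
  | jump κ i k s hr h0 hk hkn ih =>
    have h1 := bad_jump (n := n) κ i k s h0 hk
    have h1' : ((bad n (Function.update κ i k) (s + k)).card : ℝ) ≤
        (bad n κ s).card * (4 * w n k) := by exact_mod_cast h1
    have h2 : W n (Function.update κ i k) = W n κ * w n k := by
      have := W_update n κ i k
      rwa [h0, w, mul_one] at this
    have h3 : (4 : ℝ) ^ (used κ + 1) ≤ 4 ^ used (Function.update κ i k) :=
      pow_le_pow_right₀ (by norm_num) (used_jump κ i k h0 hk)
    have h4 : cc u ^ s ≤ cc u ^ (s + k) := pow_le_pow_right₀ hc (by omega)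
    have h5 : (s : ℝ) * dd g u ≤ ((s + k : ℕ) : ℝ) * dd g u := by
      refine mul_le_mul_of_nonneg_right ?_ hd.le
      exact_mod_cast Nat.le_add_right s k
    have hw : (0 : ℝ) ≤ w n k := by positivity
    have hW : (0 : ℝ) ≤ W n κ := by positivity
    have hcs : 0 ≤ cc u ^ s := by positivity
    rw [h2]
    push_cast
    calc ((bad n (Function.update κ i k) (s + k)).card : ℝ)
        ≤ (bad n κ s).card * (4 * w n k) := h1'
      _ ≤ (4 ^ used κ * cc u ^ s * (s * dd g u) * W n κ) * (4 * w n k) :=
        mul_le_mul_of_nonneg_right ih (by positivity)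
      _ = (4 ^ (used κ + 1) * cc u ^ s * (s * dd g u)) * (W n κ * w n k) := by
        rw [pow_succ]; ring
      _ ≤ (4 ^ used (Function.update κ i k) * cc u ^ (s + k) * (((s + k : ℕ) : ℝ) * dd g u)) *
          (W n κ * w n k) := by
        refine mul_le_mul_of_nonneg_right ?_ (by positivity)
        refine mul_le_mul ?_ h5 (by positivity) (by positivity)
        exact mul_le_mul h3 h4 hcs (by positivity)
      _ = _ := by push_cast; ring
  | single κ i s hr hui hin ih =>
    have h1 := bad_single (n := n) κ i s (by omega)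
    have hge : 1 ≤ 2 ^ κ i := Nat.one_le_two_pow
    have h1' : ((bad n (Function.update κ i (κ i + 1)) (s + 1)).card : ℝ) * (2 ^ κ i - 1) ≤
        (bad n κ s).card * 2 ^ n := by
      have := (Nat.cast_le (α := ℝ)).2 h1
      rw [Nat.cast_mul, Nat.cast_sub hge] at this
      push_cast at this
      exact this
    have h2 : (W n (Function.update κ i (κ i + 1)) : ℝ) = W n κ * 2 ^ (n - κ i) := by
      exact_mod_cast W_succ (n := n) κ i
    have hs := step_aux hu hui 1 (by norm_num)
    have hpow : (2 : ℝ) ^ n = 2 ^ (n - κ i) * 2 ^ κ i := by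
      rw [← pow_add]; congr 1; omega
    have hK : (0 : ℝ) < 2 ^ κ i - 1 := by
      have : (2 : ℝ) ^ 2 ≤ 2 ^ κ i := pow_le_pow_right₀ (by norm_num) (by omega)
      linarith
    have hb0 : (0 : ℝ) ≤ (bad n κ s).card := by positivity
    have h3 : ((bad n (Function.update κ i (κ i + 1)) (s + 1)).card : ℝ) ≤
        cc u * (bad n κ s).card * 2 ^ (n - κ i) := by
      refine le_of_mul_le_mul_right ?_ hK
      calc _ ≤ (bad n κ s).card * (2 : ℝ) ^ n := h1'
        _ = ((bad n κ s).card * 2 ^ (n - κ i)) * 2 ^ κ i := by rw [hpow]; ring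
        _ ≤ ((bad n κ s).card * 2 ^ (n - κ i)) * (cc u * (2 ^ κ i - 1)) :=
          mul_le_mul_of_nonneg_left hs (by positivity)
        _ = _ := by ring
    have h4 : (4 : ℝ) ^ used κ ≤ 4 ^ used (Function.update κ i (κ i + 1)) := by
      refine pow_le_pow_right₀ (by norm_num) (used_mono fun l hl => ?_)
      by_cases hli : l = i
      · subst hli; rw [Function.update_self]; omega
      · rw [Function.update_of_ne hli]; exact hl
    have h5 : (s : ℝ) * dd g u ≤ ((s + 1 : ℕ) : ℝ) * dd g u := by
      refine mul_le_mul_of_nonneg_right ?_ hd.le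
      exact_mod_cast Nat.le_add_right s 1
    rw [h2]
    calc ((bad n (Function.update κ i (κ i + 1)) (s + 1)).card : ℝ)
        ≤ cc u * (bad n κ s).card * 2 ^ (n - κ i) := h3
      _ ≤ cc u * (4 ^ used κ * cc u ^ s * (s * dd g u) * W n κ) * 2 ^ (n - κ i) := by
        refine mul_le_mul_of_nonneg_right ?_ (by positivity)
        exact mul_le_mul_of_nonneg_left ih (by linarith)
      _ = (4 ^ used κ * cc u ^ (s + 1) * (s * dd g u)) * (W n κ * 2 ^ (n - κ i)) := by
        rw [pow_succ]; ring
      _ ≤ (4 ^ used (Function.update κ i (κ i + 1)) * cc u ^ (s + 1) *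
          (((s + 1 : ℕ) : ℝ) * dd g u)) * (W n κ * 2 ^ (n - κ i)) := by
        refine mul_le_mul_of_nonneg_right ?_ (by positivity)
        refine mul_le_mul ?_ h5 (by positivity) (by positivity)
        exact mul_le_mul_of_nonneg_right h4 (by positivity)
  | pair κ i j s hr hij huv hin hjn ih =>
    obtain ⟨v, hv⟩ := Nat.exists_eq_add_of_le (show n ≤ κ i + κ j by omega)
    have huv' : u ≤ v := by omega
    set κ' := Function.update (Function.update κ i (κ i + 1)) j (κ j + 1) with hκ'
    have hκi : κ' i = κ i + 1 := by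
      rw [hκ', Function.update_of_ne hij, Function.update_self]
    have hκj : κ' j = κ j + 1 := by rw [hκ', Function.update_self]
    set S := (bad n κ' (s + 1)).filter
      (fun B => ¬ Iso (B i) (rng (B j)) ∧ ¬ Iso (B j) (rng (B i))) with hS
    have hsplit : (bad n κ' (s + 1)).card ≤ S.card +
        ((X n κ').filter (fun B => Iso (B i) (rng (B j)))).card +
        ((X n κ').filter (fun B => Iso (B j) (rng (B i)))).card := by
      refine (Finset.card_le_card ?_).trans ((Finset.card_union_le _ _).trans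
        (Nat.add_le_add_right (Finset.card_union_le _ _) _))
      intro B hB
      have hB' := mem_bad.1 hB
      rw [Finset.mem_union, Finset.mem_union, hS, Finset.mem_filter, Finset.mem_filter,
        Finset.mem_filter, mem_X]
      tauto
    have hS1 := bad_pair_aux (n := n) κ i j s v hij hv hin hjn S (Finset.filter_subset _ _)
      (fun B hB => (Finset.mem_filter.1 hB).2.1) (fun B hB => (Finset.mem_filter.1 hB).2.2)
    have hI1 := iso_tuples (n := n) κ' i j v hij (by omega) (by omega) (by omega)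
    have hI2 := iso_tuples (n := n) κ' j i v hij.symm (by omega) (by omega) (by omega)
    have hX := X_le n κ'
    have hge : 2 ≤ 2 ^ v := by
      calc 2 = 2 ^ 1 := by norm_num
        _ ≤ 2 ^ v := Nat.pow_le_pow_right (by norm_num) (by omega)
    have hS1' : (S.card : ℝ) * (2 ^ v - 2) ≤ (bad n κ s).card * 2 ^ n := by
      have := (Nat.cast_le (α := ℝ)).2 hS1
      rw [Nat.cast_mul, Nat.cast_sub hge] at this
      push_cast at this
      exact this
    have hWn : W n κ' = W n κ * 2 ^ (n - v) := by
      have e1 := W_succ (n := n) κ i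
      have e2 := W_succ (n := n) (Function.update κ i (κ i + 1)) j
      rw [Function.update_of_ne hij.symm] at e2
      rw [hκ', e2, e1, mul_assoc, ← pow_add]
      congr 2
      omega
    have hW : (W n κ' : ℝ) = W n κ * 2 ^ (n - v) := by exact_mod_cast hWn
    have hs := step_aux hu huv' 2 le_rfl
    have hpow : (2 : ℝ) ^ n = 2 ^ (n - v) * 2 ^ v := by
      rw [← pow_add]; congr 1; omega
    have hV4 : (4 : ℝ) ≤ 2 ^ v := by
      calc (4 : ℝ) = 2 ^ 2 := by norm_num
        _ ≤ 2 ^ v := pow_le_pow_right₀ (by norm_num) (by omega)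
    have hK : (0 : ℝ) < 2 ^ v - 2 := by linarith
    have hb0 : (0 : ℝ) ≤ (bad n κ s).card := by positivity
    have h3 : (S.card : ℝ) ≤ cc u * (bad n κ s).card * 2 ^ (n - v) := by
      refine le_of_mul_le_mul_right ?_ hK
      calc _ ≤ (bad n κ s).card * (2 : ℝ) ^ n := hS1'
        _ = ((bad n κ s).card * 2 ^ (n - v)) * 2 ^ v := by rw [hpow]; ring
        _ ≤ ((bad n κ s).card * 2 ^ (n - v)) * (cc u * (2 ^ v - 2)) :=
          mul_le_mul_of_nonneg_left hs (by positivity)
        _ = _ := by ring
    have hUV : (2 : ℝ) ^ u ≤ 2 ^ v := pow_le_pow_right₀ (by norm_num) huv'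
    have hU0 : (0 : ℝ) < 2 ^ u := by positivity
    have hIso : ∀ I : ℕ, I * 2 ^ v ≤ (X n κ').card → (I : ℝ) ≤ 4 ^ g / 2 ^ u * W n κ' := by
      intro I hI
      have h6 : I * 2 ^ v ≤ 4 ^ g * W n κ' := hI.trans hX
      have h7 : (I : ℝ) * 2 ^ v ≤ 4 ^ g * W n κ' := by exact_mod_cast h6
      rw [div_mul_eq_mul_div, le_div_iff₀ hU0]
      refine le_trans ?_ h7
      exact mul_le_mul_of_nonneg_left hUV (by positivity)
    have hT1 := hIso _ hI1
    have hT2 := hIso _ hI2
    have h4 : (4 : ℝ) ^ used κ ≤ 4 ^ used κ' := by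
      refine pow_le_pow_right₀ (by norm_num) (used_mono fun l hl => ?_)
      by_cases hlj : l = j
      · rw [hlj, hκj]; omega
      · by_cases hli : l = i
        · rw [hli, hκi]; omega
        · rw [hκ', Function.update_of_ne hlj, Function.update_of_ne hli]; exact hl
    have h8 : ((bad n κ' (s + 1)).card : ℝ) ≤
        cc u * (bad n κ s).card * 2 ^ (n - v) + dd g u * W n κ' := by
      have h9 : ((bad n κ' (s + 1)).card : ℝ) ≤ S.card +
        ((X n κ').filter (fun B => Iso (B i) (rng (B j)))).card +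
        ((X n κ').filter (fun B => Iso (B j) (rng (B i)))).card := by exact_mod_cast hsplit
      have e : dd g u * W n κ' = 4 ^ g / 2 ^ u * W n κ' + 4 ^ g / 2 ^ u * W n κ' := by
        unfold dd; ring
      rw [e]
      linarith
    have hone : (1 : ℝ) ≤ 4 ^ used κ' * cc u ^ (s + 1) :=
      one_le_mul_of_one_le_of_one_le (one_le_pow₀ (by norm_num)) (one_le_pow₀ hc)
    have hWp : (0 : ℝ) ≤ W n κ' := by positivity
    calc ((bad n κ' (s + 1)).card : ℝ)
        ≤ cc u * (bad n κ s).card * 2 ^ (n - v) + dd g u * W n κ' := h8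
      _ ≤ cc u * (4 ^ used κ * cc u ^ s * (s * dd g u) * W n κ) * 2 ^ (n - v) +
          dd g u * W n κ' := by
        refine add_le_add ?_ le_rfl
        refine mul_le_mul_of_nonneg_right ?_ (by positivity)
        exact mul_le_mul_of_nonneg_left ih (by linarith)
      _ = (4 ^ used κ * cc u ^ (s + 1) * (s * dd g u)) * W n κ' + 1 * (dd g u * W n κ') := by
        rw [hW, pow_succ]; ring
      _ ≤ (4 ^ used κ' * cc u ^ (s + 1) * (s * dd g u)) * W n κ' +
          (4 ^ used κ' * cc u ^ (s + 1)) * (dd g u * W n κ') := by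
        refine add_le_add ?_ ?_
        · refine mul_le_mul_of_nonneg_right ?_ hWp
          refine mul_le_mul_of_nonneg_right ?_ (by positivity)
          exact mul_le_mul_of_nonneg_right h4 (by positivity)
        · exact mul_le_mul_of_nonneg_right hone (by positivity)
      _ = 4 ^ used κ' * cc u ^ (s + 1) * (((s + 1 : ℕ) : ℝ) * dd g u) * W n κ' := by
        push_cast; ring

end RMQ
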