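import Pool.Agent.RMQ.Pair

/-!
Elementary facts on sums of weighted squares.
-/

set_option autoImplicit false

open Matrix

namespace RMQ

theorem rec_rep_zero {ι : Type} {n : ℕ} : Rep 0 (fun _ : ι => (0 : Mat n)) :=
  ⟨fun _ _ => 0, fun _ => 0, fun _ => by simp⟩

theorem rec_rep_add {ι : Type} {n s t : ℕ} {B C : ι → Mat n} (h : Rep s B) (h' : Rep t C) :
    Rep (s + t) (fun i => B i + C i) := by
  obtain ⟨p, y, hp⟩ := h
  obtain ⟨q, z, hq⟩ := h'
  refine ⟨Fin.append p q, Fin.append y z, fun i => ?_⟩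
  rw [Fin.sum_univ_add]
  simp only [Fin.append_left, Fin.append_right]
  rw [← hp i, ← hq i]

theorem rec_rep_one {ι : Type} {n : ℕ} (p : ι → ZMod 2) (y : Vec n) :
    Rep 1 (fun i => p i • sq y) :=
  ⟨fun _ => p, fun _ => y, fun i => by simp⟩

theorem rec_rep_mono {ι : Type} {n s t : ℕ} {B : ι → Mat n} (h : Rep s B) (hst : s ≤ t) :
    Rep t B := by
  obtain ⟨m, rfl⟩ := Nat.exists_eq_add_of_le hst
  have h2 : Rep m (fun _ : ι => (0 : Mat n)) :=
    ⟨fun _ _ => 0, fun _ => 0, fun _ => by simp⟩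
  have := rec_rep_add h h2
  simpa using this

theorem smul_sq_twice {n : ℕ} (a : ZMod 2) (y : Vec n) (B : Mat n) :
    B + a • sq y + a • sq y = B := by
  rw [add_assoc, mat_add_self, add_zero]

theorem rec_rep_cons {ι : Type} {n s : ℕ} {B : ι → Mat n} (p : ι → ZMod 2) (y : Vec n)
    (h : Rep s (fun i => B i + p i • sq y)) : Rep (s + 1) B := by
  have := rec_rep_add h (rec_rep_one p y)
  simpa only [smul_sq_twice] using this

/-- sums of `k` squares -/
def SumSq {n : ℕ} (k : ℕ) (B : Mat n) : Prop := ∃ y : Fin k → Vec n, B = ∑ l, sq (y l)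

theorem SumSq.mono {n k m : ℕ} {B : Mat n} (h : SumSq k B) (hkm : k ≤ m) : SumSq m B := by
  obtain ⟨d, rfl⟩ := Nat.exists_eq_add_of_le hkm
  obtain ⟨y, hy⟩ := h
  refine ⟨Fin.append y (fun _ => 0), ?_⟩
  rw [Fin.sum_univ_add]
  simp only [Fin.append_left, Fin.append_right, sq_zero, Finset.sum_const_zero, add_zero]
  exact hy

theorem SumSq.succ {n k : ℕ} {B : Mat n} (y : Vec n) (h : SumSq k (B + sq y)) :
    SumSq (k + 1) B := by
  obtain ⟨z, hz⟩ := h
  refine ⟨Fin.cons y z, ?_⟩
  rw [Fin.sum_univ_succ]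
  simp only [Fin.cons_zero, Fin.cons_succ]
  rw [← hz, add_comm, add_sq_sq]

theorem na_sumSq {n : ℕ} (k : ℕ) : ∀ B : Mat n, B.IsSymm → B.diag ≠ 0 → rk B = k + 1 →
    SumSq (k + 1) B := by
  classical
  induction k with
  | zero =>
    intro B hB hd hk
    have h := card_red hB hd hk
    rw [pow_zero] at h
    obtain ⟨y, hy⟩ := Finset.card_pos.1 (lt_of_lt_of_le one_pos h)
    rw [Finset.mem_filter] at hy
    have h1 := (Red.rk hB hy.2).1
    have h2 : B + sq y = 0 := rk_zero_iff.1 (by omega)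
    refine SumSq.succ y ?_
    rw [h2]
    exact ⟨fun _ => 0, by simp⟩
  | succ k ih =>
    intro B hB hd hk
    have h := card_red_ge hB hd hk
    have h2 : 1 ≤ 2 ^ (k + 1) - 1 := by
      have : 2 ^ 1 ≤ 2 ^ (k + 1) := Nat.pow_le_pow_right (by norm_num) (by omega)
      omega
    obtain ⟨y, hy⟩ := Finset.card_pos.1 (lt_of_lt_of_le one_pos (h2.trans h))
    rw [Finset.mem_filter] at hy
    have h1 := (Red.rk hB hy.2.1).1
    refine SumSq.succ y (ih _ (hB.add (sq_symm y)) (diag_add_sq_ne hy.2.2) (by omega))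

theorem na_sumSq' {n k : ℕ} {B : Mat n} (hB : B ∈ NA n k) : SumSq k B := by
  rw [mem_NA] at hB
  rcases k with _ | k
  · have := rk_zero_iff.1 hB.2.1
    exact absurd (by rw [this]; rfl) hB.2.2
  · exact na_sumSq k B hB.1 hB.2.2 hB.2.1

theorem symm_sumSq {n : ℕ} (B : Mat n) (hB : B.IsSymm) : SumSq (n + 1) B := by
  by_cases hd : B.diag = 0
  · by_cases hn : ∃ y : Vec n, y ≠ 0
    · obtain ⟨y, hy⟩ := hn
      refine SumSq.succ y ?_
      have h2 : B + sq y ∈ NA n (rk (B + sq y)) := by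
        rw [mem_NA]
        refine ⟨hB.add (sq_symm y), rfl, ?_⟩
        rw [diag_add_sq, hd, zero_add]
        exact hy
      exact (na_sumSq' h2).mono (rk_le _)
    · push Not at hn
      refine ⟨fun _ => 0, ?_⟩
      have : B = sq B.diag := by
        ext i j
        exfalso
        have := congrFun (hn (fun _ => 1)) i
        exact one_ne_zero this
      rw [this, hd, sq_zero]
      simp [sq_zero]
  · have h2 : B ∈ NA n (rk B) := mem_NA.2 ⟨hB, rfl, hd⟩
    exact (na_sumSq' h2).mono ((rk_le _).trans (Nat.le_succ _))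

/-- one slice at a time -/
theorem rep_slice {ι : Type} [DecidableEq ι] {n k : ℕ} {M : Mat n} (h : SumSq k M) (i : ι) :
    Rep k (fun j => if j = i then M else 0) := by
  obtain ⟨y, hy⟩ := h
  refine ⟨fun _ j => if j = i then 1 else 0, y, fun j => ?_⟩
  by_cases hj : j = i
  · simp only [hj, if_true, one_smul]
    exact hy
  · simp [hj]

/-- all tuples of symmetric matrices -/
theorem rep_all {g n : ℕ} (B : Fin g → Mat n) (hB : ∀ i, (B i).IsSymm) :
    Rep (g * (n + 1)) B := by
  choose y hy using fun i => symm_sumSq (B i) (hB i)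
  refine ⟨fun l i => if (finProdFinEquiv.symm l).1 = i then 1 else 0,
    fun l => y (finProdFinEquiv.symm l).1 (finProdFinEquiv.symm l).2, fun i => ?_⟩
  rw [← finProdFinEquiv.sum_comp]
  simp only [Equiv.symm_apply_apply]
  rw [Fintype.sum_prod_type]
  simp only [ite_smul, one_smul, zero_smul]
  rw [Finset.sum_eq_single i]
  · simp only [if_true]
    exact hy i
  · intro j _ hj
    simp [hj]
  · intro h
    exact absurd (Finset.mem_univ _) h

end RMQ
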