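import Pool.Agent.RMQ.Sched
import Pool.Agent.RMQ.Smooth
import Pool.Agent.RMQ.Good

/-!
The density theorem and the worst case theorem.
-/

set_option autoImplicit false

open Matrix Filter Topology

namespace RMQ

theorem exists_pow_ge (A : ℝ) : ∃ u0 : ℕ, ∀ u ≥ u0, A * ((u : ℝ) + 1) ≤ 2 ^ u := by
  have h1 := tendsto_pow_const_div_const_pow_of_one_lt 1 (one_lt_two (α := ℝ))
  have h0 := tendsto_pow_const_div_const_pow_of_one_lt 0 (one_lt_two (α := ℝ))
  have h2 : Tendsto (fun u : ℕ => ((u : ℝ) + 1) / 2 ^ u) atTop (𝓝 0) := by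
    have := h1.add h0
    rw [add_zero] at this
    refine this.congr fun u => ?_
    rw [pow_one, pow_zero, ← add_div]
  have h3 := h2.const_mul A
  rw [mul_zero] at h3
  obtain ⟨u0, hu0⟩ := Filter.eventually_atTop.1 (h3.eventually (gt_mem_nhds one_pos))
  refine ⟨u0, fun u hu => ?_⟩
  have h4 := hu0 u hu
  have h5 : (0 : ℝ) < 2 ^ u := by positivity
  rw [mul_div_assoc', div_lt_one h5] at h4
  exact h4.le

theorem density : DensityStatement := by
  intro d hd
  obtain ⟨g, K, hg, hK, h⟩ := sched d hd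
  obtain ⟨u0, hu0⟩ := exists_pow_ge (16 * 64 ^ g * ((1 / 2 + d) * g * (K * K ^ 3)))
  refine ⟨g, K, (1 / 2) * (1 / 4) ^ g, hg, hK, by positivity,
    K * (K ^ 3 * (u0 + 4)) + 2, ?_⟩
  rintro n hn ⟨D, rfl⟩
  have hD : K ^ 3 * (u0 + 4) ≤ D := by
    by_contra hcon
    push Not at hcon
    have : K * D ≤ K * (K ^ 3 * (u0 + 4)) := Nat.mul_le_mul_left _ hcon.le
    omega
  have hK3 : 0 < K ^ 3 := by positivity
  have hD1 : 1 ≤ D := by
    refine le_trans ?_ hD
    exact Nat.mul_pos hK3 (by omega)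
  obtain ⟨s, u, hDu, hs, hR⟩ := h D hD1
  have hu : u0 + 4 ≤ u + 1 := Nat.le_of_mul_le_mul_left (hD.trans hDu) hK3
  refine ⟨s, hs, good_of_reach (by omega) (by omega) hR ?_⟩
  have h1 := hu0 u (by omega)
  have h2 : (D : ℝ) ≤ K ^ 3 * (u + 1) := by exact_mod_cast hDu
  have h3 : (16 * 64 ^ g * s : ℝ) ≤ 2 ^ u := by
    refine le_trans ?_ h1
    have h4 : (s : ℝ) ≤ (1 / 2 + d) * g * (K * K ^ 3) * (u + 1) := by
      refine hs.trans ?_
      push_cast
      have h5 : (1 / 2 + d) * (g : ℝ) * (K * D) ≤ (1 / 2 + d) * g * (K * (K ^ 3 * (u + 1))) := by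
        refine mul_le_mul_of_nonneg_left ?_ (by positivity)
        exact mul_le_mul_of_nonneg_left h2 (by positivity)
      refine h5.trans (le_of_eq ?_)
      ring
    calc (16 * 64 ^ g * s : ℝ) ≤ 16 * 64 ^ g * ((1 / 2 + d) * g * (K * K ^ 3) * (u + 1)) :=
          mul_le_mul_of_nonneg_left h4 (by positivity)
      _ = _ := by ring
  exact_mod_cast h3

/-- export: the worst case -/
theorem worst (d : ℝ) (hd : 0 < d) : ∃ k N : ℕ, 0 < k ∧ ∀ n ≥ N, ∀ B : Fin k → Mat n,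
    (∀ i, (B i).IsSymm) → ∃ s : ℕ, Rep s B ∧ (s : ℝ) ≤ (1 / 2 + d) * k * n :=
  worst_of density (fun B hB => rep_all B hB) d hd

end RMQ
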